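import Mathlib
import Pool.Agent.Helper602.MK.Defs

/-!
# Project WA: metric Waring problem with `2k+1` summands, statements

`ee x = exp (2 pi i x)` is `Pool.Agent.Helper602.MK.ee` (facts: `Pool.Agent.Helper602.MK.N_J5b`:
`ee_add`, `norm_ee`, `ee_conj`, `ee_int`, ...).
-/

set_option autoImplicit false

namespace Pool.Agent.L7h67.WA

open Finset MeasureTheory Polynomial Filter
open Pool.Agent.Helper602.MK (ee)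

/-- the Gaussian bump of width `w` -/
noncomputable def gs (w t : ℝ) : ℝ := Real.exp (-(Real.pi * t ^ 2 / w ^ 2))

/-- the Weyl sum over `(aP, 4aP]` -/
noncomputable def WS (F : ℝ[X]) (a P : ℕ) (β : ℝ) : ℂ :=
  ∑ z ∈ Ioc (a * P) (4 * (a * P)), ee (β * F.eval (z : ℝ))

/-- the corresponding integral -/
noncomputable def WI (F : ℝ[X]) (a P : ℕ) (β : ℝ) : ℂ :=
  ∫ u in (((a * P : ℕ) : ℝ))..(((4 * (a * P) : ℕ) : ℝ)), ee (β * F.eval u)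

/-- the integral of the bump around `τ` along `F` -/
noncomputable def GI (F : ℝ[X]) (a P : ℕ) (w τ : ℝ) : ℝ :=
  ∫ u in (((a * P : ℕ) : ℝ))..(((4 * (a * P) : ℕ) : ℝ)), gs w (F.eval u - τ)

/-- the sum of the bumps around `τ` along `F` -/
noncomputable def GS (F : ℝ[X]) (a P : ℕ) (w τ : ℝ) : ℝ :=
  ∑ z ∈ Ioc (a * P) (4 * (a * P)), gs w (F.eval (z : ℝ) - τ)

/-- CORE. Davenport-Heilbronn method with the Gaussian kernel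
`gs w t = ∫ w exp (- pi w^2 β^2) e(β t) dβ`. Proof: the left side is
`∫ w exp(-pi w^2 β^2) (∑_x e(β GA x)) (∑_y e(β GB y)) (WS β - WI β) e(-β τ) dβ` (Fubini); for `|β| ≤ B`
use `η`, Cauchy-Schwarz and `∫ w exp(-pi w^2 β^2) |∑_x e(β GA x)|^2 dβ = ∑_x ∑_x' gs w (GA x - GA x')
≤ ∑ ∑ gs 1 ...`; for `|β| > B` use the trivial bounds `#XA`, `#XB`, `6 a P` and
`exp (- pi w^2 β^2) ≤ exp (- pi w^2 β^2 / 2) exp (- pi w^2 B^2 / 2)`. -/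
def S_CORE : Prop := ∀ (α γ : Type) (XA : Finset α) (XB : Finset γ) (GA : α → ℝ) (GB : γ → ℝ)
  (F : ℝ[X]) (a P : ℕ) (w B η MA MB τ : ℝ),
  0 < w → w ≤ 1 → 0 ≤ B → 0 ≤ η →
  (∀ β : ℝ, |β| ≤ B → ‖WS F a P β - WI F a P β‖ ≤ η) →
  (∑ x ∈ XA, ∑ x' ∈ XA, gs 1 (GA x - GA x')) ≤ MA →
  (∑ y ∈ XB, ∑ y' ∈ XB, gs 1 (GB y - GB y')) ≤ MB →
  |∑ x ∈ XA, ∑ y ∈ XB, (GS F a P w (τ - GA x - GB y) - GI F a P w (τ - GA x - GB y))| ≤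
    η * Real.sqrt (MA * MB) +
      12 * ((#XA : ℝ) * #XB * (a * P)) * Real.exp (-(Real.pi * w ^ 2 * B ^ 2 / 2))

/-- a Diophantine condition which holds for almost all reals -/
def Dio (ξ : ℝ) : Prop :=
  ∃ c : ℝ, 0 < c ∧ ∀ m : ℕ, 1 ≤ m → ∀ a : ℤ, c / (m : ℝ) ^ 2 ≤ |m * ξ - a|

/-- DIO: almost all reals are Diophantine (Mathlib has `ae_not_liouvilleWith`). -/
def S_DIO : Prop := ∀ᵐ ξ : ℝ, Dio ξ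

/-- WEYL: the minor arc bound (helper67). -/
def S_WEYL : Prop := ∀ k : ℕ, 2 ≤ k → ∃ σ : ℝ, 0 < σ ∧ σ ≤ 1 / 4 ∧ ∀ F : ℝ[X], F.natDegree = k →
  0 < F.leadingCoeff → Dio (F.coeff (k - 1) / F.coeff k) → ∀ a : ℕ, 1 ≤ a →
  ∀ᶠ P : ℕ in atTop, ∀ β : ℝ, (P : ℝ) ^ (1 / 2 - (k : ℝ)) ≤ |β| → |β| ≤ (P : ℝ) ^ σ →
    ‖WS F a P β‖ ≤ (P : ℝ) ^ (1 - σ)

/-- VAN: the sum minus the integral, and the integral (one integration by parts: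
`F' ≥ c P^(k-1)`, `|F''| ≤ C P^(k-2)` on `[aP, 4aP]` for large `P`). -/
def S_VAN : Prop := ∀ (k : ℕ) (F : ℝ[X]), 1 ≤ k → F.natDegree = k → 0 < F.leadingCoeff →
  ∀ a : ℕ, 1 ≤ a → ∃ C : ℝ, 0 < C ∧ ∀ᶠ P : ℕ in atTop, ∀ β : ℝ,
    ‖WS F a P β - WI F a P β‖ ≤ C * |β| * (P : ℝ) ^ k ∧
    |β| * ‖WI F a P β‖ ≤ C / (P : ℝ) ^ (k - 1)

/-- the boxes -/
def bx {ι : Type} [Fintype ι] [DecidableEq ι] (a : ι → ℕ) (P : ℕ) : Finset (ι → ℕ) :=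
  Fintype.piFinset fun i => Ioc (a i * P) (4 * (a i * P))

/-- MAINT: lower bound for the main term. Proof: the values `∑ F_i(a_i t P) + F_0(a_0 t P)` are
continuous in `t ∈ [3/2, 3]`, so equal `τ` for some `t`; for integers `x_i` with
`|x_i - a_i t P| ≤ η P` (`η` small) the number `τ - ∑ ρ(F_i(x_i))` is `F_0(u_0)` with
`u_0 ∈ a_0 [t - 1/4, t + 1/4] P`, and `|F_0(u) - F_0(u_0)| ≤ w` for `|u - u_0| ≤ w / (C P^(k-1))`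
(all `F_i' ∈ [c P^(k-1), C P^(k-1)]` on `[a_i P, 4 a_i P]`). -/
def S_MAINT : Prop := ∀ (ι : Type) [Fintype ι] [DecidableEq ι] (k : ℕ) (F : ι → ℝ[X]) (F0 : ℝ[X])
  (a : ι → ℕ) (a0 : ℕ), 1 ≤ k → (∀ i, (F i).natDegree = k ∧ 0 < (F i).leadingCoeff) →
  F0.natDegree = k → 0 < F0.leadingCoeff → (∀ i, 1 ≤ a i) → 1 ≤ a0 →
  ∃ c : ℝ, 0 < c ∧ ∀ᶠ P : ℕ in atTop, ∀ w : ℝ, 0 < w → w ≤ 1 → ∀ τ : ℝ,
    ∑ i, (F i).eval (3 / 2 * ((a i : ℝ) * P)) + F0.eval (3 / 2 * ((a0 : ℝ) * P)) ≤ τ →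
    τ ≤ ∑ i, (F i).eval (3 * ((a i : ℝ) * P)) + F0.eval (3 * ((a0 : ℝ) * P)) →
    ∀ ρ : ℝ → ℝ, (∀ t, |ρ t - t| ≤ 1) →
    c * w * (P : ℝ) ^ (Fintype.card ι) / (P : ℝ) ^ (k - 1) ≤
      ∑ x ∈ bx a P, GI F0 a0 P w (τ - ∑ i, ρ ((F i).eval (x i : ℝ)))

/-- number of pairs in the box at which the forms differ by at most `L` -/
noncomputable def cnt {ι : Type} [Fintype ι] [DecidableEq ι] (F : ι → ℝ[X]) (a : ι → ℕ) (P : ℕ)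
    (L : ℝ) : ℕ :=
  open Classical in
  #{p ∈ bx a P ×ˢ bx a P | |∑ i, (F i).eval (p.1 i : ℝ) - ∑ i, (F i).eval (p.2 i : ℝ)| ≤ L}

/-- optimal mean value along `P = 2^l` -/
def MV {k : ℕ} (F : Fin k → ℝ[X]) (a : Fin k → ℕ) : Prop :=
  ∀ ε : ℝ, 0 < ε → ∀ᶠ l : ℕ in atTop,
    (cnt F a (2 ^ l) (((2 : ℝ) ^ l) ^ ε) : ℝ) ≤ ((2 : ℝ) ^ l) ^ ((k : ℝ) + 3 * ε)

/-- GM: from MV; the pairs with difference `> P^ε` contribute next to nothing, and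
`|∑ ρ(F_i(x_i)) - ∑ F_i(x_i)| ≤ k`. -/
def S_GM : Prop := ∀ (k : ℕ) (F : Fin k → ℝ[X]) (a : Fin k → ℕ), MV F a → ∀ ρ : ℝ → ℝ,
  (∀ t, |ρ t - t| ≤ 1) → ∀ ε : ℝ, 0 < ε → ∀ᶠ l : ℕ in atTop,
    ∑ x ∈ bx a (2 ^ l), ∑ x' ∈ bx a (2 ^ l),
      gs 1 (∑ i, ρ ((F i).eval (x i : ℝ)) - ∑ i, ρ ((F i).eval (x' i : ℝ))) ≤
        ((2 : ℝ) ^ l) ^ ((k : ℝ) + ε)

/-- SUP: from WEYL and VAN (helper67). -/
def S_SUP : Prop := ∀ k : ℕ, 2 ≤ k → ∃ σ : ℝ, 0 < σ ∧ σ ≤ 1 / 4 ∧ ∀ F : ℝ[X], F.natDegree = k →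
  0 < F.leadingCoeff → Dio (F.coeff (k - 1) / F.coeff k) → ∀ a : ℕ, 1 ≤ a →
  ∀ᶠ P : ℕ in atTop, ∀ β : ℝ, |β| ≤ (P : ℝ) ^ σ → ‖WS F a P β - WI F a P β‖ ≤ (P : ℝ) ^ (1 - σ)

/-- SEP: power sums of consecutive exponents separate points of separated intervals. Proof: for every
sign pattern `s` there is a real polynomial `Q` of degree `< r` (product of `z - 6 * 8 ^ (t + i)` over
the sign changes) with `s_i Q ≥ 1` on `[8^(t+i), 4 * 8^(t+i)]`; integrate `z^m Q`. -/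
def S_SEP : Prop := ∀ r m t : ℕ, ∃ C : ℝ, 0 < C ∧ ∀ u v : Fin r → ℝ,
  (∀ i, (8 : ℝ) ^ (t + i.val) ≤ u i ∧ u i ≤ 4 * (8 : ℝ) ^ (t + i.val)) →
  (∀ i, (8 : ℝ) ^ (t + i.val) ≤ v i ∧ v i ≤ 4 * (8 : ℝ) ^ (t + i.val)) →
  ∑ i, |u i - v i| ≤ C * ∑ j ∈ range r, |∑ i, (u i ^ (m + 1 + j) - v i ^ (m + 1 + j))|

/-- LOC: from SEP (twice: all indices with exponents `m+1..m+r`, then the indices `≥ 1` with the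
exponents `m+2..m+r`). -/
def S_LOC : Prop := ∀ r m t : ℕ, 1 ≤ r → ∃ C : ℝ, 0 < C ∧ ∀ (P : ℕ) (T : ℝ), 1 ≤ P →
  (P : ℝ) ^ m ≤ T → T ≤ (P : ℝ) ^ (m + 1) → ∀ (c : ℕ → ℝ) (X : Finset (Fin r → ℕ)),
  (∀ x ∈ X, ∀ i, 8 ^ (t + i.val) * P ≤ x i ∧ x i ≤ 4 * (8 ^ (t + i.val) * P)) →
  (∀ x ∈ X, ∀ j ∈ range r, |∑ i, (x i : ℝ) ^ (m + 1 + j) - c j| ≤ T) →
  (#X : ℝ) ≤ C * T / (P : ℝ) ^ m

/-- NT: from LOC with `P^m ≤ T ≤ P^(m+1)`, `r = k - m` (fix `y` and the last `m` coordinates of `x`);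
for `T ≥ P^k` trivially. -/
def S_NT : Prop := ∀ k : ℕ, 1 ≤ k → ∃ C : ℝ, 0 < C ∧ ∀ (P : ℕ) (T : ℝ), 1 ≤ P → 1 ≤ T →
  ∀ X : Finset ((Fin k → ℕ) × (Fin k → ℕ)),
  (∀ p ∈ X, p.1 ∈ bx (fun i : Fin k => 8 ^ i.val) P ∧ p.2 ∈ bx (fun i : Fin k => 8 ^ i.val) P) →
  (∀ p ∈ X, ∀ j ∈ Icc 1 k, |∑ i, (p.1 i : ℝ) ^ j - ∑ i, (p.2 i : ℝ) ^ j| ≤ T) →
  (#X : ℝ) ≤ C * T * (P : ℝ) ^ k

/-- SLICE: volume of a set with short slices in one direction. -/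
def S_SLICE : Prop := ∀ (κ : Type) [Fintype κ] [DecidableEq κ] (j : κ) (R d : ℝ) (E : Set (κ → ℝ)),
  0 ≤ R → 0 ≤ d → MeasurableSet E → (∀ θ ∈ E, ∀ i, |θ i| ≤ R) →
  (∀ θ ∈ E, ∀ s : ℝ, Function.update θ j s ∈ E → |s - θ j| ≤ d) →
  volume E ≤ ENNReal.ofReal ((2 * R) ^ (Fintype.card κ - 1) * d)

/-- BC: Markov and Borel-Cantelli. -/
def S_BC : Prop := ∀ (Ω : Type) [MeasurableSpace Ω] (μ : Measure Ω) (β : Type)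
  (Q : ℕ → Finset β) (E : ℕ → β → Set Ω) (b c : ℕ → ℝ),
  (∀ l, ∀ p ∈ Q l, MeasurableSet (E l p)) → (∀ l, 0 < b l) → (∀ l, 0 ≤ c l) → Summable c →
  (∀ᶠ l in atTop, ∑ p ∈ Q l, μ (E l p) ≤ ENNReal.ofReal (c l * b l)) →
  ∀ᵐ ω ∂μ, ∀ᶠ l in atTop, ∀ X : Finset β, X ⊆ Q l → (∀ p ∈ X, ω ∈ E l p) → (#X : ℝ) ≤ b l

/-- the perturbed power -/
noncomputable def pp (k : ℕ) (θ : Fin k → ℝ) : ℝ[X] := X ^ k + ∑ j : Fin k, C (θ j) * X ^ j.val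

/-- MVC: from NT, SLICE, BC. -/
def S_MVC : Prop := ∀ k : ℕ, 2 ≤ k → ∀ᵐ θ : Fin k → ℝ, MV (fun _ : Fin k => pp k θ) (fun i => 8 ^ i.val)

/-- MVB: from SLICE, BC. -/
def S_MVB : Prop := ∀ (k : ℕ) (κ : Type) [Fintype κ] [DecidableEq κ] (e : Fin k → κ) (g : Fin k → ℝ[X]),
  2 ≤ k → Function.Injective e → (∀ i, (g i).natDegree = k ∧ 0 < (g i).leadingCoeff) →
  ∀ᵐ θ : κ → ℝ, MV (fun i : Fin k => (g i).comp (X - C (θ (e i)))) (fun _ => 1)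

/-- FIN: the circle method, `2k+1` summands, every large `τ`. -/
def S_FIN : Prop := ∀ k : ℕ, 2 ≤ k → ∃ c : ℝ, 0 < c ∧ ∀ (FA FB : Fin k → ℝ[X]) (F0 : ℝ[X])
  (aA aB : Fin k → ℕ) (a0 : ℕ), (∀ i, (FA i).natDegree = k ∧ 0 < (FA i).leadingCoeff) →
  (∀ i, (FB i).natDegree = k ∧ 0 < (FB i).leadingCoeff) → F0.natDegree = k → 0 < F0.leadingCoeff →
  (∀ i, 1 ≤ aA i) → (∀ i, 1 ≤ aB i) → 1 ≤ a0 → MV FA aA → MV FB aB →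
  Dio (F0.coeff (k - 1) / F0.coeff k) → ∀ M : ℕ, ∀ ρ : ℝ → ℝ, (∀ t, |ρ t - t| ≤ 1) →
  ∀ᶠ τ : ℝ in atTop, ∃ x y : Fin k → ℕ, ∃ z : ℕ, (∀ i, M ≤ x i) ∧ (∀ i, M ≤ y i) ∧ M ≤ z ∧
    |∑ i, ρ ((FA i).eval (x i : ℝ)) + ∑ i, ρ ((FB i).eval (y i : ℝ)) + F0.eval (z : ℝ) - τ| <
      τ ^ (-c)

/-- FIN2: `k+1` summands, almost all integers `n` (the exceptional set plays the role of the second
block). -/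
def S_FIN2 : Prop := ∀ k : ℕ, 2 ≤ k → ∃ c : ℝ, 0 < c ∧ ∀ (FA : Fin k → ℝ[X]) (F0 : ℝ[X])
  (aA : Fin k → ℕ) (a0 : ℕ), (∀ i, (FA i).natDegree = k ∧ 0 < (FA i).leadingCoeff) →
  F0.natDegree = k → 0 < F0.leadingCoeff →
  (∀ i, 1 ≤ aA i) → 1 ≤ a0 → MV FA aA →
  Dio (F0.coeff (k - 1) / F0.coeff k) → ∀ M : ℕ, ∀ ρ : ℝ → ℝ, (∀ t, |ρ t - t| ≤ 1) → ∀ κ : ℝ,
  ∀ᶠ N : ℕ in atTop, ∀ Z : Finset ℕ, (∀ n ∈ Z, n ≤ N) →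
    (∀ n ∈ Z, ∀ x : Fin k → ℕ, ∀ z : ℕ, (∀ i, M ≤ x i) → M ≤ z →
      (N : ℝ) ^ (-c) ≤ |∑ i, ρ ((FA i).eval (x i : ℝ)) + F0.eval (z : ℝ) - (n + κ)|) →
    (#Z : ℝ) ≤ (N : ℝ) ^ (1 - c)

end Pool.Agent.L7h67.WA
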