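import Mathlib
import Pool.Agent.H373R2.NB.Weyl
import Pool.Agent.L7h67.WA.Stm

set_option autoImplicit false

namespace Pool.Agent.L7h67.WA.W1

open Finset Polynomial
open Pool.Agent.Helper602.MK (ee)
open Pool.Agent.Helper602.MK.N_J5b (ee_add ee_zero norm_ee ee_int norm_one_sub_ee)
open Pool.Agent.H373R2.NB (Ph IW IW_all)

/-- real polynomials are polynomial phases -/
lemma Ph_real (d : ℕ) : ∀ f : ℝ[X], f.natDegree ≤ d →
    Ph d ((d.factorial : ℝ) * f.coeff d) (fun n => f.eval (n : ℝ)) := by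
  induction d with
  | zero =>
    intro f hf n
    have h1 : f = C (f.coeff 0) := eq_C_of_natDegree_le_zero hf
    have h2 : f.eval (n : ℝ) = f.coeff 0 := by
      conv_lhs => rw [h1]
      rw [eval_C]
    show f.eval (n : ℝ) = _
    rw [h2]; simp
  | succ d ih =>
    intro f hf h
    set g : ℝ[X] := taylor (h : ℝ) f - f with hg
    have hcoef : ∀ j, d ≤ j → (taylor (h : ℝ) f).coeff j =
        f.coeff j + (if j = d then ((d : ℝ) + 1) * f.coeff (d + 1) * h else 0) := by
      intro j hj
      rw [taylor_coeff]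
      have h1 : (hasseDeriv j f).natDegree < 2 := by
        have := natDegree_hasseDeriv_le f j
        omega
      rw [eval_eq_sum_range' h1, sum_range_succ, sum_range_succ, sum_range_zero, hasseDeriv_coeff,
        hasseDeriv_coeff]
      rcases eq_or_ne j d with h2 | h2
      · subst h2
        rw [if_pos rfl, zero_add, zero_add, Nat.choose_self, add_comm 1 j, Nat.choose_succ_self_right]
        push_cast
        ring
      · rw [if_neg h2]
        have h3 : f.coeff (1 + j) = 0 := coeff_eq_zero_of_natDegree_lt (by omega)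
        rw [h3, zero_add, zero_add, Nat.choose_self]
        push_cast
        ring
    have hgd : g.natDegree ≤ d := by
      rw [natDegree_le_iff_coeff_eq_zero]
      intro j hj
      rw [hg, coeff_sub, hcoef j (by omega), if_neg (by omega)]
      ring
    have hgc : g.coeff d = ((d : ℝ) + 1) * f.coeff (d + 1) * h := by
      rw [hg, coeff_sub, hcoef d le_rfl, if_pos rfl]; ring
    have h1 := ih g hgd
    have h2 : (fun n : ℕ => g.eval (n : ℝ)) = fun n : ℕ =>
        f.eval ((n + h : ℕ) : ℝ) - f.eval (n : ℝ) := by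
      funext n
      rw [hg, eval_sub, taylor_eval]
      push_cast
      ring_nf
    have h3 : (d.factorial : ℝ) * g.coeff d = (h : ℝ) * (((d + 1).factorial : ℝ) * f.coeff (d + 1)) := by
      rw [hgc, Nat.factorial_succ]; push_cast; ring
    rw [h2, h3] at h1
    exact h1

/-- Abel summation bound -/
lemma abel_bound (w g : ℕ → ℂ) (B V : ℝ) (hB : 0 ≤ B) (n : ℕ)
    (hg : ∀ X ≤ n, ‖∑ x ∈ range X, g x‖ ≤ B) (hw : ∀ x, ‖w x‖ ≤ 1)
    (hV : ∑ x ∈ range n, ‖w (x + 1) - w x‖ ≤ V) :
    ‖∑ x ∈ range n, w x * g x‖ ≤ B * (1 + V) := by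
  have h1 : ∀ n : ℕ, ∑ x ∈ range n, w x * g x =
      w n * (∑ x ∈ range n, g x) - ∑ x ∈ range n, (w (x + 1) - w x) * ∑ y ∈ range (x + 1), g y := by
    intro n
    induction n with
    | zero => simp
    | succ n ih =>
      rw [sum_range_succ, ih, sum_range_succ (fun x => (w (x + 1) - w x) * ∑ y ∈ range (x + 1), g y) n,
        sum_range_succ g n]
      ring
  rw [h1]
  refine le_trans (norm_sub_le _ _) ?_
  rw [norm_mul]
  have h2 : ‖w n‖ * ‖∑ x ∈ range n, g x‖ ≤ 1 * B :=
    mul_le_mul (hw n) (hg n le_rfl) (norm_nonneg _) (by norm_num)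
  have h3 : ‖∑ x ∈ range n, (w (x + 1) - w x) * ∑ y ∈ range (x + 1), g y‖ ≤ V * B := by
    refine le_trans (norm_sum_le _ _) ?_
    refine le_trans ?_ (mul_le_mul_of_nonneg_right hV hB)
    rw [sum_mul]
    apply sum_le_sum
    intro x hx
    rw [norm_mul]
    exact mul_le_mul_of_nonneg_left (hg _ (by rw [mem_range] at hx; omega)) (norm_nonneg _)
  linarith

/-- splitting modulo `q` -/
lemma split_mod (f : ℕ → ℂ) (n q : ℕ) (hq : 1 ≤ q) :
    ∑ i ∈ range n, f i = ∑ b ∈ range q, ∑ y ∈ range ((n + q - 1 - b) / q), f (q * y + b) := by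
  have h1 : ∑ i ∈ range n, f i = ∑ b ∈ range q, ∑ i ∈ (range n).filter (fun i => i % q = b), f i := by
    rw [Finset.sum_fiberwise_of_maps_to]
    intro i _
    rw [mem_range]
    exact Nat.mod_lt _ hq
  rw [h1]
  apply sum_congr rfl
  intro b hb
  rw [mem_range] at hb
  symm
  apply Finset.sum_bij (fun y _ => q * y + b)
  · intro y hy
    rw [mem_range] at hy
    rw [mem_filter, mem_range]
    refine ⟨?_, ?_⟩
    · have h2 : y + 1 ≤ (n + q - 1 - b) / q := hy
      rw [Nat.le_div_iff_mul_le hq] at h2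
      have h3 : (y + 1) * q = q * y + q := by ring
      rw [h3] at h2
      omega
    · rw [Nat.mul_add_mod, Nat.mod_eq_of_lt hb]
  · intro y _ y' _ h
    have h2 : q * y = q * y' := by omega
    exact Nat.eq_of_mul_eq_mul_left (by omega) h2
  · intro i hi
    rw [mem_filter, mem_range] at hi
    refine ⟨i / q, ?_, ?_⟩
    · rw [mem_range]
      show i / q + 1 ≤ (n + q - 1 - b) / q
      rw [Nat.le_div_iff_mul_le hq]
      have h2 := Nat.div_add_mod i q
      have h3 : (i / q + 1) * q = q * (i / q) + q := by ring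
      rw [h3]
      omega
    · have h2 := Nat.div_add_mod i q
      omega
  · intro y _
    rfl

lemma exists_class (f : ℕ → ℂ) (n q : ℕ) (hq : 1 ≤ q) :
    ∃ b < q, ‖∑ i ∈ range n, f i‖ ≤ q * ‖∑ y ∈ range ((n + q - 1 - b) / q), f (q * y + b)‖ := by
  by_contra hcon
  push Not at hcon
  have h1 : (q : ℝ) * ‖∑ i ∈ range n, f i‖ ≤ ∑ b ∈ range q,
      (q : ℝ) * ‖∑ y ∈ range ((n + q - 1 - b) / q), f (q * y + b)‖ := by
    rw [← mul_sum]
    apply mul_le_mul_of_nonneg_left _ (by positivity)
    rw [split_mod f n q hq]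
    exact norm_sum_le _ _
  have h2 : ∑ b ∈ range q, (q : ℝ) * ‖∑ y ∈ range ((n + q - 1 - b) / q), f (q * y + b)‖ <
      ∑ b ∈ range q, ‖∑ i ∈ range n, f i‖ := by
    apply sum_lt_sum_of_nonempty
    · rw [nonempty_range_iff]; omega
    · intro b hb
      rw [mem_range] at hb
      exact hcon b hb
  rw [sum_const, card_range, nsmul_eq_mul] at h2
  linarith

lemma norm_ee_sub (x y : ℝ) : ‖ee x - ee y‖ ≤ 2 * Real.pi * |x - y| := by
  have h1 : ee x - ee y = ee x * (1 - ee (y - x)) := by
    have : ee y = ee x * ee (y - x) := by rw [← ee_add]; congr 1; ring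
    rw [this]; ring
  have h2 : ‖ee x - ee y‖ = ‖1 - ee (y - x)‖ := by
    rw [h1, norm_mul, norm_ee, one_mul]
  rw [h2, norm_one_sub_ee]
  have h3 := Real.abs_sin_le_one (Real.pi * (y - x))
  have h4 : |Real.sin (Real.pi * (y - x))| ≤ |Real.pi * (y - x)| := Real.abs_sin_le_abs
  rw [abs_mul, abs_of_pos Real.pi_pos, abs_sub_comm] at h4
  linarith

end Pool.Agent.L7h67.WA.W1
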