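import Mathlib
import Pool.Agent.L7h67.WA.W1

set_option autoImplicit false

namespace Pool.Agent.L7h67.WA.W1

open Finset Polynomial
open Pool.Agent.Helper602.MK (ee)
open Pool.Agent.Helper602.MK.N_J5b (ee_add ee_zero norm_ee ee_int norm_one_sub_ee)
open Pool.Agent.H373R2.NB (Ph IW IW_all)

lemma taylor_coeff_top (f : ℝ[X]) (d : ℕ) (h : f.natDegree ≤ d) (r : ℝ) :
    (taylor r f).coeff d = f.coeff d := by
  rcases h.eq_or_lt with h1 | h1
  · rw [← h1, coeff_taylor_natDegree]; rfl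
  · rw [coeff_eq_zero_of_natDegree_lt h1, coeff_eq_zero_of_natDegree_lt (by rw [natDegree_taylor]; exact h1)]

lemma poly_bound (G : ℝ[X]) (d : ℕ) (hd : G.natDegree ≤ d) :
    ∃ C : ℝ, 1 ≤ C ∧ ∀ x Y : ℝ, 1 ≤ Y → |x| ≤ Y → |G.eval x| ≤ C * Y ^ d := by
  refine ⟨1 + ∑ i ∈ range (d + 1), |G.coeff i|, ?_, ?_⟩
  · have : 0 ≤ ∑ i ∈ range (d + 1), |G.coeff i| := sum_nonneg fun i _ => abs_nonneg _
    linarith
  · intro x Y hY hx
    rw [eval_eq_sum_range' (show G.natDegree < d + 1 by omega)]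
    refine (abs_sum_le_sum_abs _ _).trans ?_
    have h1 : ∑ i ∈ range (d + 1), |G.coeff i * x ^ i| ≤ ∑ i ∈ range (d + 1), |G.coeff i| * Y ^ d := by
      apply sum_le_sum
      intro i hi
      rw [mem_range] at hi
      rw [abs_mul, abs_pow]
      apply mul_le_mul_of_nonneg_left _ (abs_nonneg _)
      calc |x| ^ i ≤ Y ^ i := pow_le_pow_left₀ (abs_nonneg _) hx i
        _ ≤ Y ^ d := pow_le_pow_right₀ hY (by omega)
    rw [← sum_mul] at h1
    have h2 : 0 ≤ Y ^ d := by positivity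
    nlinarith

lemma WS_range (F : ℝ[X]) (a P : ℕ) (β : ℝ) :
    WS F a P β = ∑ n ∈ range (3 * (a * P)), ee (β * F.eval (((a * P + 1 : ℕ) : ℝ) + n)) := by
  unfold WS
  have h1 : Ioc (a * P) (4 * (a * P)) = Ico (a * P + 1) (4 * (a * P) + 1) := by
    ext z; simp only [mem_Ioc, mem_Ico]; omega
  rw [h1, sum_Ico_eq_sum_range]
  have h2 : 4 * (a * P) + 1 - (a * P + 1) = 3 * (a * P) := by omega
  rw [h2]
  apply sum_congr rfl
  intro n _
  push_cast
  ring_nf

lemma Ph_shift (F : ℝ[X]) (k : ℕ) (hF : F.natDegree ≤ k) (r s : ℝ) :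
    Ph k ((k.factorial : ℝ) * (s * F.coeff k)) (fun n => s * F.eval (r + n)) := by
  have h1 := Ph_real k (C s * taylor r F) (by
    refine (natDegree_C_mul_le _ _).trans ?_
    rw [natDegree_taylor]; exact hF)
  rw [coeff_C_mul, taylor_coeff_top F k hF] at h1
  have h2 : (fun n : ℕ => (C s * taylor r F).eval (n : ℝ)) = fun n : ℕ => s * F.eval (r + n) := by
    funext n
    rw [eval_mul, eval_C, taylor_eval, add_comm]
  rw [h2] at h1
  exact h1

lemma Ph_scale (F : ℝ[X]) (k : ℕ) (hF : F.natDegree ≤ k) (r s q : ℝ) :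
    Ph k ((k.factorial : ℝ) * (s * F.coeff k * q ^ k)) (fun n => s * F.eval (r + q * n)) := by
  have h1 := Ph_real k (C s * (taylor r F).comp (C q * X)) (by
    refine (natDegree_C_mul_le _ _).trans ?_
    refine natDegree_comp_le.trans ?_
    rw [natDegree_taylor]
    calc F.natDegree * (C q * X).natDegree ≤ k * 1 := Nat.mul_le_mul hF ((natDegree_C_mul_le _ _).trans natDegree_X_le)
      _ = k := mul_one k)
  rw [coeff_C_mul, comp_C_mul_X_coeff, taylor_coeff_top F k hF, ← mul_assoc s] at h1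
  have h2 : (fun n : ℕ => (C s * (taylor r F).comp (C q * X)).eval (n : ℝ)) =
      fun n : ℕ => s * F.eval (r + q * n) := by
    funext n
    rw [eval_mul, eval_C, eval_comp, taylor_eval, eval_mul, eval_C, eval_X, add_comm]
  rw [h2] at h1
  exact h1

/-- second step: the linear structure of the sum modulo `q` -/
lemma step_two (k : ℕ) (hk : 2 ≤ k) : ∃ c m : ℕ, 1 ≤ c ∧ ∀ F : ℝ[X], F.natDegree = k →
    0 < F.leadingCoeff → ∀ (n₀ q x₀ : ℕ) (A : ℤ) (D : ℝ), 1 ≤ q → A ≠ 0 → 1 ≤ D →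
    ((n₀ : ℝ) + q) ≤ D * ‖∑ n ∈ range n₀, ee ((A / (q * F.coeff k)) * F.eval ((x₀ : ℝ) + n))‖ →
    ∃ M : ℕ, 1 ≤ M ∧ (M : ℝ) ≤ c * D ^ m * |(A : ℝ)| * (q : ℝ) ^ (k - 2) ∧ ∃ b : ℤ,
      |M * (F.coeff (k - 1) / F.coeff k) - b| ≤ c * D ^ m * (D * q) / (n₀ + q) := by
  obtain ⟨c, m, hc, hI⟩ := IW_all (k - 1) (by omega)
  refine ⟨c * (k - 1).factorial, m, Nat.one_le_iff_ne_zero.2 (by positivity), ?_⟩
  intro F hF hl n₀ q x₀ A D hq hA hD hS
  have hlam : F.coeff k = F.leadingCoeff := by rw [← hF]; rfl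
  have hl0 : 0 < F.coeff k := by rw [hlam]; exact hl
  have hq0 : (0 : ℝ) < q := by exact_mod_cast hq
  set f : ℕ → ℂ := fun n => ee ((A / (q * F.coeff k)) * F.eval ((x₀ : ℝ) + n)) with hf
  obtain ⟨b, hb, hbS⟩ := exists_class f n₀ q hq
  set N := (n₀ + q - 1 - b) / q with hN
  have hNq : N * q ≤ n₀ + q := by
    have h := Nat.div_mul_le_self (n₀ + q - 1 - b) q
    rw [← hN] at h
    omega
  have hNq' : (N : ℝ) * q ≤ n₀ + q := by exact_mod_cast hNq
  -- the polynomial of lower degree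
  have hFe : F = C (F.coeff k) * X ^ k + F.eraseLead := by
    conv_lhs => rw [← eraseLead_add_C_mul_X_pow F]
    rw [hlam, hF, add_comm]
  have hE1 : F.eraseLead.natDegree ≤ k - 1 := by rw [← hF]; exact eraseLead_natDegree_le F
  have hE2 : F.eraseLead.coeff (k - 1) = F.coeff (k - 1) :=
    eraseLead_coeff_of_ne (k - 1) (by rw [hF]; omega)
  have hPh := Ph_scale F.eraseLead (k - 1) hE1 ((x₀ : ℝ) + b) (A / (q * F.coeff k)) q
  rw [hE2] at hPh
  -- the phases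
  have hphase : ∀ y : ℕ, f (q * y + b) = ee ((A / q) * ((x₀ : ℝ) + b) ^ k) *
      ee ((A / (q * F.coeff k)) * F.eraseLead.eval ((x₀ : ℝ) + b + q * y)) := by
    intro y
    have h1 : F.eval ((x₀ : ℝ) + ((q * y + b : ℕ) : ℝ)) =
        F.coeff k * ((x₀ : ℝ) + b + q * y) ^ k + F.eraseLead.eval ((x₀ : ℝ) + b + q * y) := by
      have h2 : (x₀ : ℝ) + ((q * y + b : ℕ) : ℝ) = (x₀ : ℝ) + b + q * y := by push_cast; ring
      rw [h2]
      conv_lhs => rw [hFe]
      rw [eval_add, eval_mul, eval_C, eval_pow, eval_X]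
    obtain ⟨E, hE⟩ : ∃ E : ℤ, ((x₀ : ℤ) + b + q * y) ^ k = ((x₀ : ℤ) + b) ^ k + q * E := by
      have h3 : ((q : ℤ)) ∣ ((x₀ : ℤ) + b + q * y) ^ k - ((x₀ : ℤ) + b) ^ k := by
        refine dvd_trans ?_ (sub_dvd_pow_sub_pow _ _ k)
        exact ⟨y, by ring⟩
      obtain ⟨E, hE⟩ := h3
      exact ⟨E, by linarith⟩
    have hE' : ((x₀ : ℝ) + b + q * y) ^ k = ((x₀ : ℝ) + b) ^ k + q * E := by exact_mod_cast hE
    rw [hf]
    simp only
    rw [h1, hE', ← ee_add]
    have h4 : (A : ℝ) / (q * F.coeff k) * (F.coeff k * (((x₀ : ℝ) + b) ^ k + q * E) +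
        F.eraseLead.eval ((x₀ : ℝ) + b + q * y)) =
        ((A / q) * ((x₀ : ℝ) + b) ^ k + (A / (q * F.coeff k)) * F.eraseLead.eval ((x₀ : ℝ) + b + q * y)) +
          ((A * E : ℤ) : ℝ) := by
      push_cast
      field_simp
      ring
    rw [h4, ee_add _ ((A * E : ℤ) : ℝ), ee_int, mul_one]
  have hsum : ‖∑ y ∈ range N, f (q * y + b)‖ =
      ‖∑ y ∈ range N, ee ((A / (q * F.coeff k)) * F.eraseLead.eval ((x₀ : ℝ) + b + q * y))‖ := by
    rw [sum_congr rfl (fun y _ => hphase y), ← mul_sum, norm_mul, norm_ee, one_mul]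
  rw [hsum] at hbS
  set S := ‖∑ y ∈ range N, ee ((A / (q * F.coeff k)) * F.eraseLead.eval ((x₀ : ℝ) + b + q * y))‖ with hSdef
  have hn0q : (0 : ℝ) < n₀ + q := by positivity
  have hSq : (n₀ : ℝ) + q ≤ D * (q * S) := hS.trans (mul_le_mul_of_nonneg_left hbS (by linarith))
  have hS0 : 0 < S := by
    by_contra h
    have h5 : S ≤ 0 := not_lt.1 h
    have h6 : D * (q * S) ≤ 0 := by
      apply mul_nonpos_of_nonneg_of_nonpos (by linarith)
      exact mul_nonpos_of_nonneg_of_nonpos hq0.le h5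
    linarith
  have hSN : S ≤ N := by
    rw [hSdef]
    refine (norm_sum_le _ _).trans ?_
    rw [sum_congr rfl (fun y _ => norm_ee _), sum_const, card_range, nsmul_eq_mul, mul_one]
  have hN0 : (0 : ℝ) < N := lt_of_lt_of_le hS0 hSN
  have hN1 : 1 ≤ N := by exact_mod_cast (Nat.cast_pos.1 hN0 : 0 < N)
  have hND : (N : ℝ) ≤ D * S := by
    have h7 : (N : ℝ) * q ≤ (D * S) * q := by nlinarith
    exact le_of_mul_le_mul_right h7 hq0
  obtain ⟨q2, hq2, hq2c, a2, ha2⟩ := hI N D _ _ hN1 hD hPh hND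
  have hA0 : (0 : ℝ) < |(A : ℝ)| := abs_pos.2 (by exact_mod_cast hA)
  have hfac : (0 : ℝ) < (k - 1).factorial := by positivity
  have hfac1 : (1 : ℝ) ≤ (k - 1).factorial := by exact_mod_cast Nat.one_le_iff_ne_zero.2 (Nat.factorial_ne_zero _)
  have hqk : (q : ℝ) ^ (k - 1) = q * (q : ℝ) ^ (k - 2) := by
    rw [← pow_succ']; congr 1; omega
  refine ⟨q2 * (k - 1).factorial * A.natAbs * q ^ (k - 2), ?_, ?_, ?_⟩
  · have : 0 < A.natAbs := Int.natAbs_pos.2 hA
    exact Nat.one_le_iff_ne_zero.2 (by positivity)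
  · push_cast
    rw [Nat.cast_natAbs, Int.cast_abs]
    have h8 : (q2 : ℝ) * (k - 1).factorial ≤ c * D ^ m * (k - 1).factorial :=
      mul_le_mul_of_nonneg_right hq2c hfac.le
    calc (q2 : ℝ) * (k - 1).factorial * |(A : ℝ)| * (q : ℝ) ^ (k - 2)
        ≤ (c * D ^ m * (k - 1).factorial) * |(A : ℝ)| * (q : ℝ) ^ (k - 2) := by gcongr
      _ = c * (k - 1).factorial * D ^ m * |(A : ℝ)| * (q : ℝ) ^ (k - 2) := by ring
  · have hval : (q2 : ℝ) * (((k - 1).factorial : ℝ) *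
        (A / (q * F.coeff k) * F.coeff (k - 1) * (q : ℝ) ^ (k - 1))) =
        (q2 * (k - 1).factorial * A * (q : ℝ) ^ (k - 2)) * (F.coeff (k - 1) / F.coeff k) := by
      rw [hqk]; field_simp
    rw [hval] at ha2
    have hbd : (c : ℝ) * D ^ m / (N : ℝ) ^ (k - 1) ≤
        ((c * (k - 1).factorial : ℕ) : ℝ) * D ^ m * (D * q) / (n₀ + q) := by
      have h9 : (N : ℝ) ≤ (N : ℝ) ^ (k - 1) := by
        have : (1 : ℝ) ≤ N := by exact_mod_cast hN1
        exact le_self_pow₀ this (by omega)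
      have h10 : (n₀ : ℝ) + q ≤ D * q * N := by
        calc (n₀ : ℝ) + q ≤ D * (q * S) := hSq
          _ ≤ D * (q * N) := by gcongr
          _ = D * q * N := by ring
      have hc0 : (0 : ℝ) < c := by exact_mod_cast hc
      have hD0 : 0 < D := by linarith
      rw [div_le_div_iff₀ (by positivity) hn0q]
      push_cast
      calc (c : ℝ) * D ^ m * (n₀ + q) ≤ c * D ^ m * (D * q * N) := by gcongr
        _ ≤ c * D ^ m * (D * q * (N : ℝ) ^ (k - 1)) := by gcongr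
        _ = c * 1 * D ^ m * (D * q) * (N : ℝ) ^ (k - 1) := by ring
        _ ≤ c * (k - 1).factorial * D ^ m * (D * q) * (N : ℝ) ^ (k - 1) := by gcongr
    refine ⟨A.sign * a2, ?_⟩
    refine le_trans (le_of_eq ?_) (ha2.trans hbd)
    have hsg : ((A.natAbs : ℕ) : ℝ) = A.sign * A := by
      rw [Nat.cast_natAbs]
      have := (Int.sign_mul_self_eq_abs A).symm
      exact_mod_cast this
    push_cast
    rw [hsg]
    have h11 : (q2 : ℝ) * (k - 1).factorial * (A.sign * A) * (q : ℝ) ^ (k - 2) * (F.coeff (k - 1) / F.coeff k) -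
        A.sign * a2 = A.sign * ((q2 * (k - 1).factorial * A * (q : ℝ) ^ (k - 2)) * (F.coeff (k - 1) / F.coeff k) - a2) := by
      ring
    rw [h11, abs_mul]
    have h12 : |((A.sign : ℤ) : ℝ)| = 1 := by
      rw [← Int.cast_abs, Int.abs_sign_of_ne_zero hA]; simp
    rw [h12, one_mul]

end Pool.Agent.L7h67.WA.W1
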