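import Mathlib
import Pool.Agent.L7h67.WA.W2

set_option autoImplicit false

namespace Pool.Agent.L7h67.WA.W1

open Finset Polynomial
open Pool.Agent.Helper602.MK (ee)
open Pool.Agent.Helper602.MK.N_J5b (ee_add ee_zero norm_ee ee_int norm_one_sub_ee)
open Pool.Agent.H373R2.NB (Ph IW IW_all)

lemma taylor_diff_natDegree (F : ℝ[X]) (k : ℕ) (hk : 1 ≤ k) (hF : F.natDegree ≤ k) (r : ℝ) :
    (taylor r F - F).natDegree ≤ k - 1 := by
  rw [natDegree_le_iff_coeff_eq_zero]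
  intro j hj
  rw [coeff_sub, taylor_coeff_top F j (by omega), sub_self]

lemma fin1 (c2 x w lam U D A q : ℝ) (m1 m2 k : ℕ) (hk : 2 ≤ k) (hc : 1 ≤ c2) (hx : 1 ≤ x)
    (hw : 1 ≤ w) (hlam : 0 < lam) (hU : 1 ≤ U) (hD0 : 0 ≤ D) (hD : D ≤ x * U ^ (2 * m1 + 1))
    (hA0 : 0 ≤ A) (hA : A ≤ w * U ^ m1 * (lam + 1) * U) (hq0 : 0 ≤ q) (hq : q ≤ w * U ^ m1) :
    c2 * D ^ m2 * A * q ^ (k - 2) ≤
      c2 * x ^ (m2 + 2) * w ^ k * (lam + 1) * (1 + 1 / lam) *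
        U ^ ((2 * m1 + 1) * (m2 + 2) + m1 * k + 1) := by
  have hU0 : 0 < U := by linarith
  have hx0 : 0 < x := by linarith
  have hw0 : 0 < w := by linarith
  have hc0 : 0 < c2 := by linarith
  have h1 : D ^ m2 ≤ x ^ m2 * U ^ ((2 * m1 + 1) * m2) := by
    rw [pow_mul, ← mul_pow]; exact pow_le_pow_left₀ hD0 hD m2
  have h2 : q ^ (k - 2) ≤ w ^ (k - 2) * U ^ (m1 * (k - 2)) := by
    rw [pow_mul, ← mul_pow]; exact pow_le_pow_left₀ hq0 hq _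
  have h3 : c2 * D ^ m2 * A * q ^ (k - 2) ≤ c2 * (x ^ m2 * U ^ ((2 * m1 + 1) * m2)) *
      (w * U ^ m1 * (lam + 1) * U) * (w ^ (k - 2) * U ^ (m1 * (k - 2))) := by gcongr
  refine h3.trans ?_
  have h4 : c2 * (x ^ m2 * U ^ ((2 * m1 + 1) * m2)) *
      (w * U ^ m1 * (lam + 1) * U) * (w ^ (k - 2) * U ^ (m1 * (k - 2))) =
      c2 * x ^ m2 * (w ^ (k - 2) * w) * (lam + 1) * 1 *
        (U ^ ((2 * m1 + 1) * m2) * U ^ m1 * U * U ^ (m1 * (k - 2))) := by ring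
  rw [h4]
  have h5 : U ^ ((2 * m1 + 1) * m2) * U ^ m1 * U * U ^ (m1 * (k - 2)) =
      U ^ ((2 * m1 + 1) * m2 + m1 + 1 + m1 * (k - 2)) := by
    rw [pow_add, pow_add, pow_add, pow_one]
  have h6 : (2 * m1 + 1) * m2 + m1 + 1 + m1 * (k - 2) ≤ (2 * m1 + 1) * (m2 + 2) + m1 * k + 1 := by
    obtain ⟨k', rfl⟩ : ∃ k', k = k' + 2 := ⟨k - 2, by omega⟩
    rw [Nat.add_sub_cancel]
    nlinarith
  have h7 : U ^ ((2 * m1 + 1) * m2 + m1 + 1 + m1 * (k - 2)) ≤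
      U ^ ((2 * m1 + 1) * (m2 + 2) + m1 * k + 1) := pow_le_pow_right₀ hU h6
  have h8 : w ^ (k - 2) * w ≤ w ^ k := by
    rw [← pow_succ]; exact pow_le_pow_right₀ hw (by omega)
  have h9 : x ^ m2 ≤ x ^ (m2 + 2) := pow_le_pow_right₀ hx (by omega)
  have h10 : (1 : ℝ) ≤ 1 + 1 / lam := by
    have : 0 < 1 / lam := by positivity
    linarith
  rw [h5]
  gcongr

lemma fin2 (c2 x w lam U D q : ℝ) (m1 m2 k : ℕ) (hk : 2 ≤ k) (hc : 1 ≤ c2) (hx : 1 ≤ x)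
    (hw : 1 ≤ w) (hlam : 0 < lam) (hU : 1 ≤ U) (hD0 : 0 ≤ D) (hD : D ≤ x * U ^ (2 * m1 + 1))
    (hq0 : 0 ≤ q) (hq : q ≤ w * U ^ m1) :
    c2 * D ^ m2 * (D * q) * D ≤
      c2 * x ^ (m2 + 2) * w ^ k * (lam + 1) * (1 + 1 / lam) *
        U ^ ((2 * m1 + 1) * (m2 + 2) + m1 * k + 1) := by
  have hU0 : 0 < U := by linarith
  have hx0 : 0 < x := by linarith
  have hw0 : 0 < w := by linarith
  have hc0 : 0 < c2 := by linarith
  have h1 : D ^ (m2 + 2) ≤ x ^ (m2 + 2) * U ^ ((2 * m1 + 1) * (m2 + 2)) := by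
    rw [pow_mul, ← mul_pow]; exact pow_le_pow_left₀ hD0 hD _
  have h3 : c2 * D ^ m2 * (D * q) * D = c2 * D ^ (m2 + 2) * q := by ring
  rw [h3]
  have h4 : c2 * D ^ (m2 + 2) * q ≤ c2 * (x ^ (m2 + 2) * U ^ ((2 * m1 + 1) * (m2 + 2))) *
      (w * U ^ m1) := by gcongr
  refine h4.trans ?_
  have h5 : c2 * (x ^ (m2 + 2) * U ^ ((2 * m1 + 1) * (m2 + 2))) * (w * U ^ m1) =
      c2 * x ^ (m2 + 2) * w * 1 * 1 * (U ^ ((2 * m1 + 1) * (m2 + 2)) * U ^ m1) := by ring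
  rw [h5, ← pow_add]
  have h6 : (2 * m1 + 1) * (m2 + 2) + m1 ≤ (2 * m1 + 1) * (m2 + 2) + m1 * k + 1 := by
    have : m1 * 1 ≤ m1 * k := Nat.mul_le_mul_left _ (by omega)
    omega
  have h7 : U ^ ((2 * m1 + 1) * (m2 + 2) + m1) ≤
      U ^ ((2 * m1 + 1) * (m2 + 2) + m1 * k + 1) := pow_le_pow_right₀ hU h6
  have h8 : w ≤ w ^ k := le_self_pow₀ hw (by omega)
  have h10 : (1 : ℝ) ≤ 1 + 1 / lam := by
    have : 0 < 1 / lam := by positivity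
    linarith
  have h11 : (1 : ℝ) ≤ lam + 1 := by linarith
  gcongr

lemma variation (k : ℕ) (hk : 1 ≤ k) (F : ℝ[X]) (lam CΔ : ℝ) (hlam : 0 < lam)
    (hCΔ : 1 ≤ CΔ)
    (hΔ : ∀ x Y : ℝ, 1 ≤ Y → |x| ≤ Y → |(taylor 1 F - F).eval x| ≤ CΔ * Y ^ (k - 1))
    (a P q : ℕ) (ha : 1 ≤ a) (hP : 1 ≤ P) (hq : 1 ≤ q) (η W : ℝ) (hηW : |η| ≤ W / (P : ℝ) ^ k)
    (hW : 0 ≤ W) :
    ∑ x ∈ range (3 * (a * P)), ‖ee ((η / (q * lam)) * F.eval (((a * P + 1 : ℕ) : ℝ) + ((x + 1 : ℕ) : ℝ))) -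
      ee ((η / (q * lam)) * F.eval (((a * P + 1 : ℕ) : ℝ) + x))‖ ≤
      3 * a * (2 * Real.pi) * (CΔ * (5 * a) ^ (k - 1)) / lam * W := by
  have ha1 : (1 : ℝ) ≤ a := by exact_mod_cast ha
  have hP1 : (1 : ℝ) ≤ P := by exact_mod_cast hP
  have hq1 : (1 : ℝ) ≤ q := by exact_mod_cast hq
  have hP0 : (0 : ℝ) < P := by linarith
  have hq0 : (0 : ℝ) < q := by linarith
  have hpi := Real.pi_pos
  have haP : (1 : ℝ) ≤ a * P := by nlinarith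
  have h4 : |η / (q * lam)| ≤ W / (P : ℝ) ^ k / lam := by
    rw [abs_div, abs_of_pos (show (0 : ℝ) < q * lam by positivity)]
    calc |η| / (q * lam) ≤ |η| / (1 * lam) := by gcongr
      _ = |η| / lam := by rw [one_mul]
      _ ≤ W / (P : ℝ) ^ k / lam := by gcongr
  have h2 : ∀ x ∈ range (3 * (a * P)), ‖ee ((η / (q * lam)) * F.eval (((a * P + 1 : ℕ) : ℝ) + ((x + 1 : ℕ) : ℝ))) -
      ee ((η / (q * lam)) * F.eval (((a * P + 1 : ℕ) : ℝ) + x))‖ ≤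
      2 * Real.pi * (W / (P : ℝ) ^ k / lam * (CΔ * (5 * a * P) ^ (k - 1))) := by
    intro x hx
    rw [mem_range] at hx
    refine (norm_ee_sub _ _).trans ?_
    have h3 : (η / (q * lam)) * F.eval (((a * P + 1 : ℕ) : ℝ) + ((x + 1 : ℕ) : ℝ)) -
        (η / (q * lam)) * F.eval (((a * P + 1 : ℕ) : ℝ) + x) =
        (η / (q * lam)) * (taylor 1 F - F).eval (((a * P + 1 : ℕ) : ℝ) + x) := by
      rw [eval_sub, taylor_eval, ← mul_sub]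
      congr 3
      push_cast; ring
    rw [h3, abs_mul]
    have h5 : |(taylor 1 F - F).eval (((a * P + 1 : ℕ) : ℝ) + x)| ≤ CΔ * (5 * a * P) ^ (k - 1) := by
      apply hΔ
      · linarith
      · have h6 : (x : ℝ) ≤ 3 * (a * P) := by exact_mod_cast hx.le
        rw [abs_of_nonneg (by positivity)]
        push_cast
        linarith
    have h7 : |η / (q * lam)| * |(taylor 1 F - F).eval (((a * P + 1 : ℕ) : ℝ) + x)| ≤
        W / (P : ℝ) ^ k / lam * (CΔ * (5 * a * P) ^ (k - 1)) :=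
      mul_le_mul h4 h5 (abs_nonneg _) (by positivity)
    exact mul_le_mul_of_nonneg_left h7 (by positivity)
  refine (sum_le_sum h2).trans ?_
  rw [sum_const, card_range, nsmul_eq_mul]
  have h8 : (5 * (a : ℝ) * P) ^ (k - 1) = (5 * a) ^ (k - 1) * (P : ℝ) ^ (k - 1) := by rw [mul_pow]
  have h9 : (P : ℝ) ^ k = (P : ℝ) ^ (k - 1) * P := by rw [← pow_succ]; congr 1; omega
  rw [h8, h9]
  push_cast
  apply le_of_eq
  field_simp

lemma large_subsum (k : ℕ) (hk : 1 ≤ k) (F : ℝ[X]) (lam CΔ : ℝ) (hlam : 0 < lam)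
    (hCΔ : 1 ≤ CΔ)
    (hΔ : ∀ x Y : ℝ, 1 ≤ Y → |x| ≤ Y → |(taylor 1 F - F).eval x| ≤ CΔ * Y ^ (k - 1))
    (a P q : ℕ) (ha : 1 ≤ a) (hP : 1 ≤ P) (hq : 1 ≤ q) (A : ℤ) (η W β V D U : ℝ)
    (hη : η = q * lam * β - A) (hηW : |η| ≤ W / (P : ℝ) ^ k)
    (hW : 0 ≤ W) (hV : V = 3 * a * (2 * Real.pi) * (CΔ * (5 * a) ^ (k - 1)) / lam * W)
    (hD : D = 2 * U * (1 + V) * (3 * a + q)) (hU : 1 ≤ U) (hPU : (P : ℝ) ≤ U * ‖WS F a P β‖) :
    ∃ n₀ ≤ 3 * (a * P), (((3 * (a * P) : ℕ) : ℝ) + q) / D <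
        ‖∑ n ∈ range n₀, ee ((A / (q * lam)) * F.eval (((a * P + 1 : ℕ) : ℝ) + n))‖ := by
  have ha1 : (1 : ℝ) ≤ a := by exact_mod_cast ha
  have hP1 : (1 : ℝ) ≤ P := by exact_mod_cast hP
  have hq1 : (1 : ℝ) ≤ q := by exact_mod_cast hq
  have hP0 : (0 : ℝ) < P := by linarith
  have hq0 : (0 : ℝ) < q := by linarith
  have hpi := Real.pi_pos
  have hV0 : 0 ≤ V := by rw [hV]; positivity
  have hD0 : 0 < D := by rw [hD]; positivity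
  by_contra hcon
  push Not at hcon
  have h1 := abel_bound (fun n => ee ((η / (q * lam)) * F.eval (((a * P + 1 : ℕ) : ℝ) + n)))
    (fun n => ee ((A / (q * lam)) * F.eval (((a * P + 1 : ℕ) : ℝ) + n)))
    ((((3 * (a * P) : ℕ) : ℝ) + q) / D) V
    (by positivity) (3 * (a * P)) hcon (fun x => (norm_ee _).le)
    ((variation k hk F lam CΔ hlam hCΔ hΔ a P q ha hP hq η W hηW hW).trans (le_of_eq hV.symm))
  have h10 : (∑ n ∈ range (3 * (a * P)), ee ((η / (q * lam)) * F.eval (((a * P + 1 : ℕ) : ℝ) + n)) *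
      ee ((A / (q * lam)) * F.eval (((a * P + 1 : ℕ) : ℝ) + n))) = WS F a P β := by
    rw [WS_range]
    apply sum_congr rfl
    intro n _
    rw [← ee_add]
    congr 1
    rw [← add_mul]
    congr 1
    rw [hη]
    field_simp
    ring
  rw [h10] at h1
  have h11 : (P : ℝ) ≤ U * ((((3 * (a * P) : ℕ) : ℝ) + q) / D * (1 + V)) :=
    hPU.trans (mul_le_mul_of_nonneg_left h1 (by linarith))
  have h12 : ((3 * (a * P) : ℕ) : ℝ) + q ≤ P * (3 * a + q) := by push_cast; nlinarith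
  have h13 : U * ((((3 * (a * P) : ℕ) : ℝ) + q) / D * (1 + V)) ≤ P / 2 := by
    calc U * ((((3 * (a * P) : ℕ) : ℝ) + q) / D * (1 + V))
        ≤ U * ((P * (3 * a + q)) / D * (1 + V)) := by gcongr
      _ = P / 2 := by rw [hD]; field_simp
  linarith

/-- KEY -/
theorem key (k : ℕ) (hk : 2 ≤ k) : ∃ m : ℕ, ∀ F : ℝ[X], F.natDegree = k → 0 < F.leadingCoeff →
    ∀ a : ℕ, 1 ≤ a → ∃ c : ℝ, 1 ≤ c ∧ ∀ P : ℕ, 1 ≤ P → ∀ U β : ℝ, 1 ≤ U → |β| ≤ U →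
    (P : ℝ) ≤ U * ‖WS F a P β‖ →
    |β| ≤ c * U ^ m / (P : ℝ) ^ k ∨
    ∃ M : ℕ, 1 ≤ M ∧ (M : ℝ) ≤ c * U ^ m ∧ ∃ b : ℤ,
      |M * (F.coeff (k - 1) / F.coeff k) - b| ≤ c * U ^ m / P := by
  obtain ⟨c1, m1, hc1, hI1⟩ := IW_all k (by omega)
  obtain ⟨c2, m2, hc2, hI2⟩ := step_two k hk
  refine ⟨(2 * m1 + 1) * (m2 + 2) + m1 * k + 1, ?_⟩
  intro F hF hl a ha
  obtain ⟨lam, hlamdef⟩ : ∃ lam, lam = F.coeff k := ⟨_, rfl⟩
  have hlam : F.coeff k = F.leadingCoeff := by rw [← hF]; rfl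
  have hl0 : 0 < lam := by rw [hlamdef, hlam]; exact hl
  obtain ⟨CΔ, hCΔ, hΔ⟩ := poly_bound (taylor 1 F - F) (k - 1) (taylor_diff_natDegree F k (by omega) (by omega) 1)
  have ha1 : (1 : ℝ) ≤ a := by exact_mod_cast ha
  have hc1' : (1 : ℝ) ≤ c1 := by exact_mod_cast hc1
  have hc2' : (1 : ℝ) ≤ c2 := by exact_mod_cast hc2
  have hkf : (1 : ℝ) ≤ (k.factorial : ℝ) := by exact_mod_cast Nat.one_le_iff_ne_zero.2 (Nat.factorial_ne_zero _)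
  have hone : ∀ x y : ℝ, 1 ≤ x → 1 ≤ y → 1 ≤ x * y := fun x y hx hy => by nlinarith
  obtain ⟨w1, hw1⟩ : ∃ w1 : ℝ, w1 = c1 * (3 * a) ^ m1 * k.factorial := ⟨_, rfl⟩
  have hw1' : 1 ≤ w1 := by
    rw [hw1]
    exact hone _ _ (hone _ _ hc1' (one_le_pow₀ (by linarith))) hkf
  obtain ⟨v0, hv0⟩ : ∃ v0 : ℝ, v0 = 3 * a * (2 * Real.pi) * (CΔ * (5 * a) ^ (k - 1)) / lam := ⟨_, rfl⟩
  have hpi := Real.pi_pos
  have hv0' : 0 ≤ v0 := by rw [hv0]; positivity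
  obtain ⟨d0, hd0⟩ : ∃ d0 : ℝ, d0 = 2 * (1 + v0) * (3 * a + 1) := ⟨_, rfl⟩
  have hd0' : 1 ≤ d0 := by rw [hd0]; nlinarith
  have hdw : 1 ≤ d0 * w1 ^ 2 := hone _ _ hd0' (one_le_pow₀ hw1')
  obtain ⟨c, hc⟩ : ∃ c : ℝ, c = c2 * (d0 * w1 ^ 2) ^ (m2 + 2) * w1 ^ k * (lam + 1) * (1 + 1 / lam) := ⟨_, rfl⟩
  have hinv : 0 < 1 / lam := by positivity
  have hF1 : 1 ≤ (d0 * w1 ^ 2) ^ (m2 + 2) := one_le_pow₀ hdw
  have hF2 : 1 ≤ w1 ^ k := one_le_pow₀ hw1'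
  have hF3 : 1 ≤ lam + 1 := by linarith
  have hF4 : 1 ≤ 1 + 1 / lam := by linarith
  have hc1'' : 1 ≤ c := by rw [hc]; exact hone _ _ (hone _ _ (hone _ _ (hone _ _ hc2' hF1) hF2) hF3) hF4
  refine ⟨c, hc1'', ?_⟩
  intro P hP U β hU hβ hPU
  have hP1 : (1 : ℝ) ≤ P := by exact_mod_cast hP
  have hP0 : (0 : ℝ) < P := by linarith
  have hU0 : (0 : ℝ) < U := by linarith
  have hPk : (0 : ℝ) < (P : ℝ) ^ k := by positivity
  have hPk1 : (1 : ℝ) ≤ (P : ℝ) ^ k := one_le_pow₀ hP1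
  have hN1 : 1 ≤ 3 * (a * P) := by have := Nat.mul_le_mul ha hP; omega
  have hNr : ((3 * (a * P) : ℕ) : ℝ) = 3 * (a * P) := by push_cast; ring
  have hu1 : (1 : ℝ) ≤ 3 * a * U := by nlinarith
  have hNS : ((3 * (a * P) : ℕ) : ℝ) ≤ (3 * a * U) * ‖∑ n ∈ range (3 * (a * P)), ee (β * F.eval (((a * P + 1 : ℕ) : ℝ) + n))‖ := by
    rw [← WS_range, hNr]
    have : 3 * (a : ℝ) * P ≤ 3 * a * (U * ‖WS F a P β‖) := mul_le_mul_of_nonneg_left hPU (by positivity)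
    linarith
  obtain ⟨q1, hq1, hq1c, a1, ha1'⟩ := hI1 (3 * (a * P)) (3 * a * U) _ _ hN1 hu1 (Ph_shift F k hF.le _ β) hNS
  rw [← hlamdef] at ha1'
  obtain ⟨W, hW⟩ : ∃ W : ℝ, W = w1 * U ^ m1 := ⟨_, rfl⟩
  have hUm : (1 : ℝ) ≤ U ^ m1 := one_le_pow₀ hU
  have hW1 : 1 ≤ W := by rw [hW]; exact hone _ _ hw1' hUm
  have hcW : (c1 : ℝ) * (3 * a * U) ^ m1 * k.factorial = W := by
    rw [hW, hw1, mul_pow (3 * (a : ℝ)) U]; ring
  obtain ⟨q, hq⟩ : ∃ q : ℕ, q = q1 * k.factorial := ⟨_, rfl⟩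
  have hqpos : 1 ≤ q := Nat.one_le_iff_ne_zero.2 (by rw [hq]; positivity)
  have hq0 : (0 : ℝ) < q := by exact_mod_cast hqpos
  have hqr1 : (1 : ℝ) ≤ q := by exact_mod_cast hqpos
  have hqW : (q : ℝ) ≤ W := by
    rw [hq, ← hcW]; push_cast
    exact mul_le_mul_of_nonneg_right hq1c (by positivity)
  obtain ⟨η, hη⟩ : ∃ η : ℝ, η = q * lam * β - a1 := ⟨_, rfl⟩
  have hηW : |η| ≤ W / (P : ℝ) ^ k := by
    have h1 : (q1 : ℝ) * ((k.factorial : ℝ) * (β * lam)) - a1 = η := by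
      rw [hη, hq]; push_cast; ring
    rw [h1] at ha1'
    refine ha1'.trans ?_
    have h2 : (P : ℝ) ^ k ≤ ((3 * (a * P) : ℕ) : ℝ) ^ k := by
      apply pow_le_pow_left₀ hP0.le
      rw [hNr]; nlinarith
    have h3 : (c1 : ℝ) * (3 * a * U) ^ m1 ≤ W := by
      rw [← hcW]
      exact le_mul_of_one_le_right (by positivity) hkf
    exact div_le_div₀ (by linarith) h3 hPk h2
  have hPW : W / (P : ℝ) ^ k ≤ W := div_le_self (by linarith) hPk1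
  rcases eq_or_ne a1 0 with hz | hnz
  · left
    have h1 : |η| = q * (lam * |β|) := by
      rw [hη, hz, Int.cast_zero, sub_zero, abs_mul, abs_of_pos (by positivity), mul_assoc]
    have h2 : lam * |β| ≤ W / (P : ℝ) ^ k := by
      refine le_trans ?_ hηW
      rw [h1]
      exact le_mul_of_one_le_left (by positivity) hqr1
    have h3 : |β| ≤ (1 / lam) * (W / (P : ℝ) ^ k) := by
      rw [one_div, inv_mul_eq_div, le_div_iff₀ hl0, mul_comm]; exact h2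
    refine h3.trans ?_
    rw [← mul_div_assoc]
    apply div_le_div_of_nonneg_right _ hPk.le
    have hw1k : w1 ≤ w1 ^ k := le_self_pow₀ hw1' (by omega)
    have h5 : 1 ≤ (c2 : ℝ) * (d0 * w1 ^ 2) ^ (m2 + 2) := hone _ _ hc2' hF1
    have h4 : (1 / lam) * w1 ≤ c := by
      have e1 : w1 ≤ (c2 * (d0 * w1 ^ 2) ^ (m2 + 2)) * w1 ^ k := by
        calc w1 = 1 * w1 := (one_mul _).symm
          _ ≤ (c2 * (d0 * w1 ^ 2) ^ (m2 + 2)) * w1 ^ k := mul_le_mul h5 hw1k (by linarith) (by linarith)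
      have e2 : w1 ≤ (c2 * (d0 * w1 ^ 2) ^ (m2 + 2)) * w1 ^ k * (lam + 1) :=
        e1.trans (le_mul_of_one_le_right (by linarith) hF3)
      rw [hc, mul_comm (1 / lam) w1]
      exact mul_le_mul e2 (by linarith) hinv.le (by linarith)
    have hUmm : U ^ m1 ≤ U ^ ((2 * m1 + 1) * (m2 + 2) + m1 * k + 1) := by
      apply pow_le_pow_right₀ hU
      have : m1 * 1 ≤ m1 * k := Nat.mul_le_mul_left _ (by omega)
      omega
    rw [hW, ← mul_assoc]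
    exact mul_le_mul h4 hUmm (by positivity) (by linarith)
  · right
    obtain ⟨V, hV⟩ : ∃ V : ℝ, V = v0 * W := ⟨_, rfl⟩
    have hV0 : 0 ≤ V := by rw [hV]; positivity
    obtain ⟨D, hD⟩ : ∃ D : ℝ, D = 2 * U * (1 + V) * (3 * a + q) := ⟨_, rfl⟩
    have hD1 : 1 ≤ D := by
      rw [hD]
      exact hone _ _ (hone _ _ (by linarith) (by linarith)) (by linarith)
    have hD0 : 0 < D := by linarith
    obtain ⟨n₀, hn₀, hlarge⟩ := large_subsum k (by omega) F lam CΔ hl0 hCΔ hΔ a P q ha hP hqpos a1 η W β V D U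
      hη hηW (by linarith) (by rw [hV, hv0]) hD hU hPU
    have hDS : ((n₀ : ℝ) + q) ≤ D * ‖∑ n ∈ range n₀, ee ((a1 / (q * lam)) * F.eval (((a * P + 1 : ℕ) : ℝ) + n))‖ := by
      rw [div_lt_iff₀ hD0] at hlarge
      have : (n₀ : ℝ) ≤ ((3 * (a * P) : ℕ) : ℝ) := by exact_mod_cast hn₀
      linarith
    have hn0P : (P : ℝ) ≤ D * (n₀ + q) := by
      have h1 : ‖∑ n ∈ range n₀, ee ((a1 / (q * lam)) * F.eval (((a * P + 1 : ℕ) : ℝ) + n))‖ ≤ n₀ := by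
        refine (norm_sum_le _ _).trans ?_
        rw [sum_congr rfl (fun y _ => norm_ee _), sum_const, card_range, nsmul_eq_mul, mul_one]
      have h2 := hlarge.le.trans h1
      rw [div_le_iff₀ hD0] at h2
      have h3 : (P : ℝ) ≤ ((3 * (a * P) : ℕ) : ℝ) := by rw [hNr]; nlinarith
      have h4 : 0 ≤ D * q := by positivity
      linarith
    rw [hlamdef] at hDS
    obtain ⟨M, hM1, hMc, b, hb⟩ := hI2 F hF hl n₀ q (a * P + 1) a1 D hqpos hnz hD1 hDS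
    have hDb : D ≤ d0 * U * W ^ 2 := by
      have h1 : 1 + V ≤ (1 + v0) * W := by rw [hV]; linarith
      have h2 : 3 * (a : ℝ) + q ≤ (3 * a + 1) * W := by nlinarith
      rw [hD, hd0]
      calc 2 * U * (1 + V) * (3 * a + q) ≤ 2 * U * ((1 + v0) * W) * ((3 * a + 1) * W) := by gcongr
        _ = 2 * (1 + v0) * (3 * a + 1) * U * W ^ 2 := by ring
    have hDb2 : D ≤ (d0 * w1 ^ 2) * U ^ (2 * m1 + 1) := by
      refine hDb.trans (le_of_eq ?_)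
      rw [hW]; ring
    have hAb : |(a1 : ℝ)| ≤ W * (lam + 1) * U := by
      have h1 : (a1 : ℝ) = q * lam * β - η := by rw [hη]; ring
      rw [h1]
      refine (abs_sub _ _).trans ?_
      rw [abs_mul, abs_of_pos (show (0 : ℝ) < q * lam by positivity)]
      have h2 : (q : ℝ) * lam * |β| ≤ W * lam * U := by gcongr
      have h3 : |η| ≤ W * U := hηW.trans (hPW.trans (le_mul_of_one_le_right (by linarith) hU))
      linarith
    have hq0' : (0 : ℝ) ≤ q := hq0.le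
    refine ⟨M, hM1, hMc.trans ?_, b, hb.trans ?_⟩
    · rw [hc]
      exact fin1 c2 (d0 * w1 ^ 2) w1 lam U D _ q m1 m2 k hk hc2' hdw hw1' hl0 hU hD0.le hDb2
        (abs_nonneg _) (by rw [← hW]; exact hAb) hq0' (by rw [← hW]; exact hqW)
    · have hn0q : (0 : ℝ) < (n₀ : ℝ) + q := by positivity
      have h1 : (c2 : ℝ) * D ^ m2 * (D * q) / (n₀ + q) ≤ c2 * D ^ m2 * (D * q) * D / P := by
        rw [div_le_div_iff₀ hn0q hP0]
        have h2 : 0 ≤ (c2 : ℝ) * D ^ m2 * (D * q) := by positivity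
        have h3 := mul_le_mul_of_nonneg_left hn0P h2
        rw [mul_assoc _ D ((n₀ : ℝ) + q)]
        exact h3
      refine h1.trans ?_
      apply div_le_div_of_nonneg_right _ hP0.le
      rw [hc]
      exact fin2 c2 (d0 * w1 ^ 2) w1 lam U D q m1 m2 k hk hc2' hdw hw1' hl0 hU hD0.le hDb2
        hq0' (by rw [← hW]; exact hqW)

end Pool.Agent.L7h67.WA.W1
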