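import Mathlib
import Pool.Agent.L7h67.WA.W3

set_option autoImplicit false

namespace Pool.Agent.L7h67.WA

open Finset Polynomial Filter
open Pool.Agent.Helper602.MK (ee)

/-- eventually `C * P^(-e) < b` for natural `P` -/
lemma ev_small (C b e : ℝ) (hb : 0 < b) (he : 0 < e) :
    ∀ᶠ P : ℕ in atTop, C * (P : ℝ) ^ (-e) < b := by
  have h1 : Tendsto (fun P : ℕ => C * (P : ℝ) ^ (-e)) atTop (nhds (C * 0)) :=
    ((tendsto_rpow_neg_atTop he).comp tendsto_natCast_atTop_atTop).const_mul C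
  rw [mul_zero] at h1
  exact h1.eventually (gt_mem_nhds hb)

theorem s_WEYL : S_WEYL := by
  intro k hk
  obtain ⟨m, hm⟩ := W1.key k hk
  obtain ⟨σ, hσ⟩ : ∃ σ : ℝ, σ = 1 / (8 * (m + 1)) := ⟨_, rfl⟩
  have hm0 : (0 : ℝ) ≤ m := Nat.cast_nonneg m
  have hσ0 : 0 < σ := by rw [hσ]; positivity
  have hσ4 : σ ≤ 1 / 4 := by
    rw [hσ, div_le_div_iff₀ (by positivity) (by norm_num)]; linarith
  have hmσ : m * σ ≤ 1 / 8 := by
    rw [hσ, mul_one_div, div_le_div_iff₀ (by positivity) (by norm_num)]; linarith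
  refine ⟨σ, hσ0, hσ4, ?_⟩
  intro F hF hl hdio a ha
  obtain ⟨c, hc, hkey⟩ := hm F hF hl a ha
  obtain ⟨c', hc', hD⟩ := hdio
  have e1 := ev_small c 1 (1 / 4) one_pos (by norm_num)
  have e2 := ev_small (c ^ 3) c' (1 / 4) hc' (by norm_num)
  filter_upwards [e1, e2, eventually_ge_atTop 1] with P h1 h2 hP β hβ1 hβ2
  have hP1 : (1 : ℝ) ≤ P := by exact_mod_cast hP
  have hP0 : (0 : ℝ) < P := by linarith
  by_contra hcon
  push Not at hcon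
  have hU : (1 : ℝ) ≤ (P : ℝ) ^ σ := Real.one_le_rpow hP1 hσ0.le
  have hPU : (P : ℝ) ≤ (P : ℝ) ^ σ * ‖WS F a P β‖ := by
    calc (P : ℝ) = (P : ℝ) ^ σ * (P : ℝ) ^ (1 - σ) := by
          rw [← Real.rpow_add hP0]; ring_nf; rw [Real.rpow_one]
      _ ≤ (P : ℝ) ^ σ * ‖WS F a P β‖ := mul_le_mul_of_nonneg_left hcon.le (by linarith)
  have hUm : ((P : ℝ) ^ σ) ^ m ≤ (P : ℝ) ^ (1 / 8 : ℝ) := by
    rw [← Real.rpow_natCast, ← Real.rpow_mul hP0.le]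
    apply Real.rpow_le_rpow_of_exponent_le hP1
    linarith
  have hcU : c * ((P : ℝ) ^ σ) ^ m ≤ c * (P : ℝ) ^ (1 / 8 : ℝ) :=
    mul_le_mul_of_nonneg_left hUm (by linarith)
  rcases hkey P hP _ β hU hβ2 hPU with h3 | ⟨M, hM1, hM2, b, hb⟩
  · have h4 : (P : ℝ) ^ (1 / 2 - (k : ℝ)) ≤ c * (P : ℝ) ^ (1 / 8 : ℝ) / (P : ℝ) ^ k :=
      hβ1.trans (h3.trans (div_le_div_of_nonneg_right hcU (by positivity)))
    rw [Real.rpow_sub hP0, Real.rpow_natCast, div_le_div_iff_of_pos_right (by positivity)] at h4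
    have h5 : (P : ℝ) ^ (1 / 2 : ℝ) ≤ c * (P : ℝ) ^ (-(1 / 4) : ℝ) * (P : ℝ) ^ (1 / 2 : ℝ) := by
      rw [mul_assoc, ← Real.rpow_add hP0]
      refine h4.trans (mul_le_mul_of_nonneg_left ?_ (by linarith))
      apply Real.rpow_le_rpow_of_exponent_le hP1
      norm_num
    have h6 : 0 < (P : ℝ) ^ (1 / 2 : ℝ) := by positivity
    nlinarith
  · have hM0 : (0 : ℝ) < M := by exact_mod_cast hM1
    have h4 := hD M hM1 b
    have h5 : c' / (M : ℝ) ^ 2 ≤ c * (P : ℝ) ^ (1 / 8 : ℝ) / P :=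
      h4.trans (hb.trans (div_le_div_of_nonneg_right hcU hP0.le))
    rw [div_le_div_iff₀ (by positivity) hP0] at h5
    have h6 : (M : ℝ) ^ 2 ≤ (c * (P : ℝ) ^ (1 / 8 : ℝ)) ^ 2 :=
      pow_le_pow_left₀ hM0.le (hM2.trans hcU) 2
    have h7 : c' * P ≤ c ^ 3 * ((P : ℝ) ^ (1 / 8 : ℝ)) ^ 3 := by
      calc c' * P ≤ c * (P : ℝ) ^ (1 / 8 : ℝ) * (M : ℝ) ^ 2 := h5
        _ ≤ c * (P : ℝ) ^ (1 / 8 : ℝ) * (c * (P : ℝ) ^ (1 / 8 : ℝ)) ^ 2 :=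
          mul_le_mul_of_nonneg_left h6 (by positivity)
        _ = c ^ 3 * ((P : ℝ) ^ (1 / 8 : ℝ)) ^ 3 := by ring
    have h8 : ((P : ℝ) ^ (1 / 8 : ℝ)) ^ 3 ≤ (P : ℝ) ^ (-(1 / 4) : ℝ) * P := by
      rw [← Real.rpow_natCast, ← Real.rpow_mul hP0.le]
      nth_rw 3 [← Real.rpow_one (P : ℝ)]
      rw [← Real.rpow_add hP0]
      apply Real.rpow_le_rpow_of_exponent_le hP1
      norm_num
    have h9 : c' * P ≤ c ^ 3 * ((P : ℝ) ^ (-(1 / 4) : ℝ) * P) :=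
      h7.trans (mul_le_mul_of_nonneg_left h8 (by positivity))
    rw [← mul_assoc] at h9
    nlinarith

end Pool.Agent.L7h67.WA
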