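import Mathlib
import Pool.Agent.L7h67.WA.Weyl
import Pool.Agent.L7h22.WA.Van

set_option autoImplicit false

namespace Pool.Agent.L7h67.WA

open Finset Polynomial Filter
open Pool.Agent.Helper602.MK (ee)

theorem s_SUP : S_SUP := by
  intro k hk
  obtain ⟨σ, hσ0, hσ4, hW⟩ := s_WEYL k hk
  refine ⟨σ / 2, by linarith, by linarith, ?_⟩
  intro F hF hl hdio a ha
  obtain ⟨C, hC, hV⟩ := Pool.Agent.L7h22.WA.s_VAN k F (by omega) hF hl a ha
  have e1 := ev_small (1 + C) 1 (σ / 2) one_pos (by linarith)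
  filter_upwards [hW F hF hl hdio a ha, hV, e1, eventually_ge_atTop 1] with P h1 h2 h3 hP β hβ
  have hP1 : (1 : ℝ) ≤ P := by exact_mod_cast hP
  have hP0 : (0 : ℝ) < P := by linarith
  have hkey : ∀ y : ℝ, y ≤ (1 + C) * (P : ℝ) ^ (1 - σ) → y ≤ (P : ℝ) ^ (1 - σ / 2) := by
    intro y hy
    have e2 : (P : ℝ) ^ (1 - σ) = (P : ℝ) ^ (-(σ / 2)) * (P : ℝ) ^ (1 - σ / 2) := by
      rw [← Real.rpow_add hP0]; ring_nf
    rw [e2, ← mul_assoc] at hy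
    have h4 : 0 < (P : ℝ) ^ (1 - σ / 2) := by positivity
    nlinarith
  have hhalf : (P : ℝ) ^ (1 / 2 : ℝ) ≤ (P : ℝ) ^ (1 - σ) :=
    Real.rpow_le_rpow_of_exponent_le hP1 (by linarith)
  obtain ⟨h5, h6⟩ := h2 β
  have hpos : 0 < (P : ℝ) ^ (1 - σ) := by positivity
  apply hkey
  rcases lt_or_ge |β| ((P : ℝ) ^ (1 / 2 - (k : ℝ))) with hlt | hge
  · have h7 : C * |β| * (P : ℝ) ^ k ≤ C * (P : ℝ) ^ (1 / 2 : ℝ) := by
      have e3 : (P : ℝ) ^ (1 / 2 : ℝ) = (P : ℝ) ^ (1 / 2 - (k : ℝ)) * (P : ℝ) ^ k := by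
        rw [← Real.rpow_natCast, ← Real.rpow_add hP0]; ring_nf
      rw [e3, mul_assoc]
      gcongr
    nlinarith
  · have h8 := h1 β hge (hβ.trans (Real.rpow_le_rpow_of_exponent_le hP1 (by linarith)))
    have h9 : ‖WI F a P β‖ ≤ C * (P : ℝ) ^ (1 / 2 : ℝ) := by
      have e4 : C / (P : ℝ) ^ (k - 1) = C * (P : ℝ) ^ (1 / 2 : ℝ) * (P : ℝ) ^ (1 / 2 - (k : ℝ)) := by
        rw [mul_assoc, ← Real.rpow_add hP0]
        have e5 : (1 / 2 : ℝ) + (1 / 2 - (k : ℝ)) = -((k - 1 : ℕ) : ℝ) := by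
          rw [Nat.cast_sub (by omega)]; push_cast; ring
        rw [e5, Real.rpow_neg hP0.le, Real.rpow_natCast]
        rfl
      rw [e4] at h6
      have h10 : 0 < (P : ℝ) ^ (1 / 2 - (k : ℝ)) := by positivity
      have h11 : ‖WI F a P β‖ * (P : ℝ) ^ (1 / 2 - (k : ℝ)) ≤
          C * (P : ℝ) ^ (1 / 2 : ℝ) * (P : ℝ) ^ (1 / 2 - (k : ℝ)) := by
        refine le_trans ?_ h6
        rw [mul_comm]
        exact mul_le_mul_of_nonneg_right hge (norm_nonneg _)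
      exact le_of_mul_le_mul_right h11 h10
    have h12 := norm_sub_le (WS F a P β) (WI F a P β)
    nlinarith

end Pool.Agent.L7h67.WA
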