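import Mathlib
import Pool.Agent.L7h67.WA.Sup
import Pool.Agent.L7h37.WA.Core
import Pool.Agent.L7h22.WA.Maint

set_option autoImplicit false

namespace Pool.Agent.L7h67.WA

open Finset Polynomial Filter
open Pool.Agent.Helper602.MK (ee)

/-- exponential decay beats every power -/
lemma ev_exp (C b N s : ℝ) (hb : 0 < b) (hs : 0 < s) :
    ∀ᶠ P : ℕ in atTop, C * ((P : ℝ) ^ N * Real.exp (-(Real.pi / 2) * (P : ℝ) ^ s)) < b := by
  have h0 : Tendsto (fun P : ℕ => (P : ℝ) ^ s) atTop atTop :=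
    (tendsto_rpow_atTop hs).comp tendsto_natCast_atTop_atTop
  have h1 := (tendsto_rpow_mul_exp_neg_mul_atTop_nhds_zero (N / s) (Real.pi / 2)
    (by positivity)).comp h0
  have h2 : Tendsto (fun P : ℕ => C * (((P : ℝ) ^ s) ^ (N / s) * Real.exp (-(Real.pi / 2) * (P : ℝ) ^ s)))
      atTop (nhds (C * 0)) := h1.const_mul C
  rw [mul_zero] at h2
  have h3 := h2.eventually (gt_mem_nhds hb)
  filter_upwards [h3] with P h
  rw [← Real.rpow_mul (Nat.cast_nonneg P), mul_div_cancel₀ _ hs.ne'] at h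
  exact h

/-- a sequence tending to infinity catches every large real -/
lemma catch_seq (H : ℕ → ℝ) (hH : Tendsto H atTop atTop) (l₀ : ℕ) :
    ∀ᶠ τ : ℝ in atTop, ∃ l, l₀ ≤ l ∧ H l ≤ τ ∧ τ ≤ H (l + 1) := by
  have h1 : ∃ B : ℝ, ∀ l ≤ l₀, H l ≤ B :=
    ⟨∑ l ∈ range (l₀ + 1), |H l|, fun l hl => (le_abs_self _).trans
      (single_le_sum (f := fun l => |H l|) (fun i _ => abs_nonneg _) (mem_range.2 (by omega)))⟩
  obtain ⟨B, hB⟩ := h1
  filter_upwards [eventually_ge_atTop B] with τ hτ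
  have hex : ∃ l, τ < H l := (hH.eventually (eventually_gt_atTop τ)).exists
  classical
  have h2 := Nat.find_spec hex
  have h3 : ∀ m, m < Nat.find hex → ¬ τ < H m := fun m hm => Nat.find_min hex hm
  set n := Nat.find hex with hn
  have h4 : l₀ < n := by
    by_contra h
    have := hB n (by omega)
    linarith
  refine ⟨n - 1, by omega, not_lt.1 (h3 (n - 1) (by omega)), ?_⟩
  rw [show n - 1 + 1 = n by omega]
  exact h2.le

/-- the box of a sum type -/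
lemma bx_sum {ι κ : Type} [Fintype ι] [DecidableEq ι] [Fintype κ] [DecidableEq κ]
    (a : ι → ℕ) (b : κ → ℕ) (P : ℕ) (f : (ι ⊕ κ → ℕ) → ℝ) :
    ∑ x ∈ bx (Sum.elim a b) P, f x = ∑ x ∈ bx a P, ∑ y ∈ bx b P, f (Sum.elim x y) := by
  rw [← sum_product']
  refine Finset.sum_bij' (fun x _ => ((fun i => x (Sum.inl i)), (fun i => x (Sum.inr i))))
    (fun p _ => Sum.elim p.1 p.2) ?_ ?_ ?_ ?_ ?_
  · intro x hx
    rw [bx, Fintype.mem_piFinset] at hx
    rw [mem_product, bx, bx, Fintype.mem_piFinset, Fintype.mem_piFinset]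
    exact ⟨fun i => hx (Sum.inl i), fun i => hx (Sum.inr i)⟩
  · intro p hp
    rw [mem_product, bx, bx, Fintype.mem_piFinset, Fintype.mem_piFinset] at hp
    rw [bx, Fintype.mem_piFinset]
    rintro (i | i)
    · exact hp.1 i
    · exact hp.2 i
  · intro x _
    funext i
    rcases i with i | i <;> rfl
  · intro p _
    rfl
  · intro x _
    congr 1
    funext i
    rcases i with i | i <;> rfl

lemma card_bx {ι : Type} [Fintype ι] [DecidableEq ι] (a : ι → ℕ) (P : ℕ) :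
    (#(bx a P) : ℝ) = (∏ i, (3 * (a i : ℝ))) * (P : ℝ) ^ (Fintype.card ι) := by
  rw [bx, Fintype.card_piFinset]
  push_cast
  have h1 : ∀ i, ((#(Ioc (a i * P) (4 * (a i * P))) : ℕ) : ℝ) = (3 * (a i : ℝ)) * P := by
    intro i
    rw [Nat.card_Ioc, show 4 * (a i * P) - a i * P = 3 * (a i * P) by omega]
    push_cast; ring
  rw [prod_congr rfl (fun i _ => h1 i), prod_mul_distrib, prod_const, card_univ]

lemma mem_bx_ge {ι : Type} [Fintype ι] [DecidableEq ι] (a : ι → ℕ) (ha : ∀ i, 1 ≤ a i) (P : ℕ)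
    (x : ι → ℕ) (hx : x ∈ bx a P) (i : ι) : P ≤ x i := by
  rw [bx, Fintype.mem_piFinset] at hx
  have h := hx i
  rw [mem_Ioc] at h
  have h2 : 1 * P ≤ a i * P := Nat.mul_le_mul_right P (ha i)
  omega

/-- GS is tiny when no value is close -/
lemma GS_small (F : ℝ[X]) (a P : ℕ) (w τ δ : ℝ) (hw : 0 < w) (hδ : 0 ≤ δ)
    (h : ∀ z ∈ Ioc (a * P) (4 * (a * P)), δ ≤ |F.eval (z : ℝ) - τ|) :
    GS F a P w τ ≤ 3 * (a * P) * Real.exp (-(Real.pi * (δ / w) ^ 2)) := by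
  unfold GS
  have h1 : ∀ z ∈ Ioc (a * P) (4 * (a * P)), gs w (F.eval (z : ℝ) - τ) ≤
      Real.exp (-(Real.pi * (δ / w) ^ 2)) := by
    intro z hz
    unfold gs
    apply Real.exp_le_exp.2
    apply neg_le_neg
    rw [mul_div_assoc, ← div_pow]
    apply mul_le_mul_of_nonneg_left _ Real.pi_pos.le
    rw [← sq_abs ((F.eval (z : ℝ) - τ) / w), abs_div, abs_of_pos hw]
    apply pow_le_pow_left₀ (by positivity)
    exact div_le_div_of_nonneg_right (h z hz) hw.le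
  refine (sum_le_sum h1).trans ?_
  rw [sum_const, Nat.card_Ioc, show 4 * (a * P) - a * P = 3 * (a * P) by omega, nsmul_eq_mul]
  push_cast
  linarith

/-- sum of polynomial values tends to infinity -/
lemma H_tendsto {ι : Type} [Fintype ι] (k : ℕ) (hk : 1 ≤ k) (F : ι → ℝ[X]) (F0 : ℝ[X]) (a : ι → ℕ) (a0 : ℕ)
    (hF : ∀ i, (F i).natDegree = k ∧ 0 < (F i).leadingCoeff) (hF0 : F0.natDegree = k)
    (hl0 : 0 < F0.leadingCoeff) (ha : ∀ i, 1 ≤ a i) (ha0 : 1 ≤ a0) (s : ℝ) (hs : 0 < s) :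
    Tendsto (fun P : ℕ => ∑ i, (F i).eval (s * ((a i : ℝ) * P)) + F0.eval (s * ((a0 : ℝ) * P))) atTop atTop := by
  have hone : ∀ (G : ℝ[X]) (b : ℕ), G.natDegree = k → 0 < G.leadingCoeff → 1 ≤ b →
      Tendsto (fun P : ℕ => G.eval (s * ((b : ℝ) * P))) atTop atTop := by
    intro G b hG hl hb
    have h1 : Tendsto (fun x : ℝ => G.eval x) atTop atTop := by
      apply G.tendsto_atTop_of_leadingCoeff_nonneg _ hl.le
      rw [degree_eq_natDegree (by rintro rfl; simp at hl), hG]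
      exact_mod_cast (by omega : 0 < k)
    apply h1.comp
    have hb0 : (0 : ℝ) < b := by exact_mod_cast hb
    apply Tendsto.const_mul_atTop hs
    exact Tendsto.const_mul_atTop hb0 tendsto_natCast_atTop_atTop
  have h2 : ∀ᶠ P : ℕ in atTop, ∀ i, 0 ≤ (F i).eval (s * ((a i : ℝ) * P)) := by
    rw [eventually_all]
    intro i
    exact (hone (F i) (a i) (hF i).1 (hF i).2 (ha i)).eventually (eventually_ge_atTop 0)
  apply tendsto_atTop_mono' _ _ (hone F0 a0 hF0 hl0 ha0)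
  filter_upwards [h2] with P hP
  have := sum_nonneg (s := univ) fun i _ => hP i
  linarith

/-- polynomial growth -/
lemma H_upper {ι : Type} [Fintype ι] (k : ℕ) (F : ι → ℝ[X]) (F0 : ℝ[X]) (a : ι → ℕ) (a0 : ℕ)
    (hF : ∀ i, (F i).natDegree = k) (hF0 : F0.natDegree = k) (ha : ∀ i, 1 ≤ a i) (ha0 : 1 ≤ a0) :
    ∀ᶠ P : ℕ in atTop, ∑ i, (F i).eval (3 * ((a i : ℝ) * P)) + F0.eval (3 * ((a0 : ℝ) * P)) ≤
      (P : ℝ) ^ (k + 1) := by
  have hone : ∀ (G : ℝ[X]) (b : ℕ), G.natDegree = k → 1 ≤ b →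
      ∃ C : ℝ, 0 ≤ C ∧ ∀ P : ℕ, 1 ≤ P → G.eval (3 * ((b : ℝ) * P)) ≤ C * (P : ℝ) ^ k := by
    intro G b hG hb
    obtain ⟨C, hC, h⟩ := W1.poly_bound G k hG.le
    refine ⟨C * (3 * b) ^ k, by positivity, fun P hP => ?_⟩
    have hb1 : (1 : ℝ) ≤ b := by exact_mod_cast hb
    have hP1 : (1 : ℝ) ≤ P := by exact_mod_cast hP
    have h1 : (1 : ℝ) ≤ 3 * ((b : ℝ) * P) := by nlinarith
    have h2 := h (3 * ((b : ℝ) * P)) (3 * ((b : ℝ) * P)) h1 (by rw [abs_of_nonneg (by linarith)])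
    refine (le_abs_self _).trans (h2.trans (le_of_eq ?_))
    rw [← mul_assoc, mul_pow]; ring
  choose C hC0 hC using fun i => hone (F i) (a i) (hF i) (ha i)
  obtain ⟨C0, hC00, hC0'⟩ := hone F0 a0 hF0 ha0
  obtain ⟨K, hK⟩ := exists_nat_ge (∑ i, C i + C0)
  filter_upwards [eventually_ge_atTop (K + 1)] with P hP
  have hP1 : 1 ≤ P := by omega
  have h1 : ∑ i, (F i).eval (3 * ((a i : ℝ) * P)) ≤ ∑ i, C i * (P : ℝ) ^ k :=
    sum_le_sum fun i _ => hC i P hP1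
  have h2 := hC0' P hP1
  rw [← sum_mul] at h1
  have h3 : (K : ℝ) ≤ P := by exact_mod_cast (by omega : K ≤ P)
  have h4 : 0 ≤ (P : ℝ) ^ k := by positivity
  rw [pow_succ]
  nlinarith

end Pool.Agent.L7h67.WA
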