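import Mathlib
import Pool.Agent.L7h67.WA.Fin

set_option autoImplicit false

namespace Pool.Agent.L7h67.WA

open Finset Polynomial Filter
open Pool.Agent.Helper602.MK (ee)

lemma exps (P w B δ σ τ : ℝ) (k : ℕ) (hk : 2 ≤ k) (hP : 1 ≤ P) (hσ : 0 < σ) (hw : w = P ^ (-(σ / 4)))
    (hB : B = P ^ σ) (hτ1 : 1 ≤ τ) (hτ2 : τ ≤ P ^ (k + 1)) (hδ : δ = τ ^ (-(σ / (16 * k)))) :
    Real.exp (-(Real.pi * w ^ 2 * B ^ 2 / 2)) ≤ Real.exp (-(Real.pi / 2) * P ^ (σ / 4)) ∧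
    Real.exp (-(Real.pi * (δ / w) ^ 2)) ≤ Real.exp (-(Real.pi / 2) * P ^ (σ / 4)) := by
  have hP0 : 0 < P := by linarith
  have hk0 : (2 : ℝ) ≤ k := by exact_mod_cast hk
  have hpi := Real.pi_pos
  constructor
  · apply Real.exp_le_exp.2
    have h1 : w ^ 2 * B ^ 2 = P ^ (3 * σ / 2) := by
      rw [hw, hB, ← Real.rpow_natCast, ← Real.rpow_natCast, ← Real.rpow_mul hP0.le,
        ← Real.rpow_mul hP0.le, ← Real.rpow_add hP0]
      congr 1; push_cast; ring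
    have h2 : P ^ (σ / 4) ≤ P ^ (3 * σ / 2) := Real.rpow_le_rpow_of_exponent_le hP (by linarith)
    have h3 : Real.pi * w ^ 2 * B ^ 2 / 2 = Real.pi / 2 * P ^ (3 * σ / 2) := by rw [← h1]; ring
    rw [h3]
    have h4 : Real.pi / 2 * P ^ (σ / 4) ≤ Real.pi / 2 * P ^ (3 * σ / 2) :=
      mul_le_mul_of_nonneg_left h2 (by positivity)
    linarith
  · apply Real.exp_le_exp.2
    have h1 : P ^ (-(σ / 8)) ≤ δ := by
      rw [hδ]
      have h2 : (P ^ (k + 1)) ^ (-(σ / (16 * k))) ≤ τ ^ (-(σ / (16 * k))) := by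
        apply Real.rpow_le_rpow_of_nonpos (by linarith) hτ2
        have : 0 < σ / (16 * k) := by positivity
        linarith
      refine le_trans ?_ h2
      rw [← Real.rpow_natCast, ← Real.rpow_mul hP0.le]
      apply Real.rpow_le_rpow_of_exponent_le hP
      push_cast
      have h3 : ((k : ℝ) + 1) * -(σ / (16 * k)) = -(σ * ((k + 1) / (16 * k))) := by ring
      rw [h3]
      have h4 : ((k : ℝ) + 1) / (16 * k) ≤ 1 / 8 := by
        rw [div_le_div_iff₀ (by positivity) (by norm_num)]; linarith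
      nlinarith
    have h5 : P ^ (σ / 8) ≤ δ / w := by
      have hw0 : 0 < w := by rw [hw]; positivity
      rw [le_div_iff₀ hw0, hw, ← Real.rpow_add hP0]
      refine le_trans (le_of_eq ?_) h1
      congr 1; ring
    have h6 : P ^ (σ / 4) ≤ (δ / w) ^ 2 := by
      have h7 : P ^ (σ / 4) = (P ^ (σ / 8)) ^ 2 := by
        rw [← Real.rpow_natCast, ← Real.rpow_mul hP0.le]; congr 1; push_cast; ring
      rw [h7]
      exact pow_le_pow_left₀ (by positivity) h5 2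
    have h8 : 0 ≤ P ^ (σ / 4) := by positivity
    nlinarith

theorem fin_of (hGM : S_GM) : S_FIN := by
  intro k hk
  obtain ⟨σ, hσ0, hσ4, hSup⟩ := s_SUP k hk
  have hk0 : (0 : ℝ) < k := by exact_mod_cast (by omega : 0 < k)
  refine ⟨σ / (16 * k), by positivity, ?_⟩
  intro FA FB F0 aA aB a0 hFA hFB hF0 hl0 haA haB ha0 hMA hMB hdio M ρ hρ
  have hFS : ∀ i, (Sum.elim FA FB i).natDegree = k ∧ 0 < (Sum.elim FA FB i).leadingCoeff := by
    rintro (i | i)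
    · exact hFA i
    · exact hFB i
  have haS : ∀ i, 1 ≤ Sum.elim aA aB i := by
    rintro (i | i)
    · exact haA i
    · exact haB i
  obtain ⟨c, hc, hMain⟩ := Pool.Agent.L7h22.WA.s_MAINT (Fin k ⊕ Fin k) k (Sum.elim FA FB) F0
    (Sum.elim aA aB) a0 (by omega) hFS hF0 hl0 haS ha0
  have hpow : Tendsto (fun l : ℕ => (2 : ℕ) ^ l) atTop atTop :=
    tendsto_pow_atTop_atTop_of_one_lt (by norm_num)
  obtain ⟨H, hH⟩ : ∃ H : ℕ → ℝ, ∀ l, H l = ∑ i, (Sum.elim FA FB i).eval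
      (3 / 2 * (((Sum.elim aA aB i : ℕ) : ℝ) * ((2 ^ l : ℕ) : ℝ))) +
      F0.eval (3 / 2 * ((a0 : ℝ) * ((2 ^ l : ℕ) : ℝ))) := ⟨_, fun l => rfl⟩
  have hHt : Tendsto H atTop atTop := by
    have h1 := (H_tendsto k (by omega) (Sum.elim FA FB) F0 (Sum.elim aA aB) a0 hFS hF0 hl0 haS ha0
      (3 / 2) (by norm_num)).comp hpow
    refine h1.congr (fun l => ?_)
    rw [hH]; rfl
  have hH2 : ∀ l, H (l + 1) = ∑ i, (Sum.elim FA FB i).eval
      (3 * (((Sum.elim aA aB i : ℕ) : ℝ) * ((2 ^ l : ℕ) : ℝ))) +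
      F0.eval (3 * ((a0 : ℝ) * ((2 ^ l : ℕ) : ℝ))) := by
    intro l
    rw [hH]
    congr 1
    · apply sum_congr rfl
      intro i _
      congr 1
      push_cast; ring
    · congr 1
      push_cast; ring
  obtain ⟨KA, hKA⟩ : ∃ KA : ℝ, KA = ∏ i, (3 * (aA i : ℝ)) := ⟨_, rfl⟩
  obtain ⟨KB, hKB⟩ : ∃ KB : ℝ, KB = ∏ i, (3 * (aB i : ℝ)) := ⟨_, rfl⟩
  have hcardA : ∀ P : ℕ, (#(bx aA P) : ℝ) = KA * (P : ℝ) ^ k := by
    intro P; rw [card_bx, hKA, Fintype.card_fin]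
  have hcardB : ∀ P : ℕ, (#(bx aB P) : ℝ) = KB * (P : ℝ) ^ k := by
    intro P; rw [card_bx, hKB, Fintype.card_fin]
  have E2 := hpow.eventually hMain
  have E3 := hpow.eventually (hSup F0 hF0 hl0 hdio a0 ha0)
  have E4 := hGM k FA aA hMA ρ hρ (σ / 4) (by linarith)
  have E5 := hGM k FB aB hMB ρ hρ (σ / 4) (by linarith)
  have E6 := hpow.eventually (H_upper k (Sum.elim FA FB) F0 (Sum.elim aA aB) a0 (fun i => (hFS i).1)
    hF0 haS ha0)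
  have E7 := hpow.eventually (ev_small 1 (c / 3) (σ / 2) (by linarith) (by linarith))
  have E8 := hpow.eventually (ev_exp (15 * (KA * KB * a0)) (c / 3) (k + σ / 4) (σ / 4) (by linarith) (by linarith))
  have E9 := hHt.eventually (eventually_ge_atTop 1)
  have E1 := hpow.eventually (eventually_ge_atTop (M + 1))
  obtain ⟨l₀, hl₀⟩ := eventually_atTop.1 (E1.and (E2.and (E3.and (E4.and (E5.and (E6.and (E7.and (E8.and E9))))))))
  filter_upwards [catch_seq H hHt l₀] with τ hτ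
  obtain ⟨l, hl, hτ1, hτ2⟩ := hτ
  obtain ⟨e1, e2, e3, e4, e5, e6, e7, e8, e9⟩ := hl₀ l hl
  by_contra hcon
  push Not at hcon
  obtain ⟨P, hP⟩ : ∃ P : ℕ, P = 2 ^ l := ⟨_, rfl⟩
  rw [hH2] at hτ2
  have hτP : τ ≤ (P : ℝ) ^ (k + 1) := by rw [hP]; exact hτ2.trans e6
  have hτ1' : 1 ≤ τ := e9.trans hτ1
  rw [hH] at hτ1
  have hcastP : (2 : ℝ) ^ l = (P : ℝ) := by rw [hP]; push_cast; ring
  rw [hcastP] at e4 e5
  rw [← hP] at e1 e2 e3 e4 e5 e7 e8 hτ1 hτ2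
  have hPM : M ≤ P := by omega
  have hP1 : (1 : ℝ) ≤ P := by exact_mod_cast (by omega : 1 ≤ P)
  have hP0 : (0 : ℝ) < P := by linarith
  obtain ⟨w, hw⟩ : ∃ w : ℝ, w = (P : ℝ) ^ (-(σ / 4)) := ⟨_, rfl⟩
  have hw0 : 0 < w := by rw [hw]; positivity
  have hw1 : w ≤ 1 := by rw [hw]; exact Real.rpow_le_one_of_one_le_of_nonpos hP1 (by linarith)
  obtain ⟨δ, hδ⟩ : ∃ δ : ℝ, δ = τ ^ (-(σ / (16 * k))) := ⟨_, rfl⟩
  have hδ0 : 0 ≤ δ := by rw [hδ]; positivity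
  obtain ⟨x1, x2⟩ := exps P w ((P : ℝ) ^ σ) δ σ τ k hk hP1 hσ0 hw rfl hτ1' hτP hδ
  obtain ⟨E, hE⟩ : ∃ E : ℝ, E = Real.exp (-(Real.pi / 2) * (P : ℝ) ^ (σ / 4)) := ⟨_, rfl⟩
  have hE0 : 0 < E := by rw [hE]; exact Real.exp_pos _
  rw [← hE] at x1 x2 e8
  -- the core estimate
  have hcore := Pool.Agent.L7h37.WA.s_CORE (Fin k → ℕ) (Fin k → ℕ) (bx aA P) (bx aB P)
    (fun x => ∑ i, ρ ((FA i).eval (x i : ℝ))) (fun y => ∑ i, ρ ((FB i).eval (y i : ℝ)))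
    F0 a0 P w ((P : ℝ) ^ σ) ((P : ℝ) ^ (1 - σ)) ((P : ℝ) ^ ((k : ℝ) + σ / 4))
    ((P : ℝ) ^ ((k : ℝ) + σ / 4)) τ hw0 hw1 (by positivity) (by positivity) e3 e4 e5
  have hmain := e2 w hw0 hw1 τ hτ1 hτ2 ρ hρ
  rw [bx_sum, Fintype.card_sum, Fintype.card_fin] at hmain
  simp only [Fintype.sum_sum_type, Sum.elim_inl, Sum.elim_inr] at hmain
  have hGI : ∑ x ∈ bx aA P, ∑ y ∈ bx aB P, GI F0 a0 P w
      (τ - (∑ i, ρ ((FA i).eval (x i : ℝ)) + ∑ i, ρ ((FB i).eval (y i : ℝ)))) =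
      ∑ x ∈ bx aA P, ∑ y ∈ bx aB P, GI F0 a0 P w
      (τ - ∑ i, ρ ((FA i).eval (x i : ℝ)) - ∑ i, ρ ((FB i).eval (y i : ℝ))) := by
    apply sum_congr rfl; intro x _
    apply sum_congr rfl; intro y _
    rw [sub_sub]
  rw [hGI] at hmain
  have hGS : ∑ x ∈ bx aA P, ∑ y ∈ bx aB P, GS F0 a0 P w
      (τ - ∑ i, ρ ((FA i).eval (x i : ℝ)) - ∑ i, ρ ((FB i).eval (y i : ℝ))) ≤
      ((#(bx aA P) : ℝ) * #(bx aB P)) * (3 * (a0 * P) * E) := by
    have h1 : ∀ x ∈ bx aA P, ∑ y ∈ bx aB P, GS F0 a0 P w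
        (τ - ∑ i, ρ ((FA i).eval (x i : ℝ)) - ∑ i, ρ ((FB i).eval (y i : ℝ))) ≤
        (#(bx aB P) : ℝ) * (3 * (a0 * P) * E) := by
      intro x hx
      have h2 : ∀ y ∈ bx aB P, GS F0 a0 P w
          (τ - ∑ i, ρ ((FA i).eval (x i : ℝ)) - ∑ i, ρ ((FB i).eval (y i : ℝ))) ≤
          3 * (a0 * P) * E := by
        intro y hy
        refine (GS_small F0 a0 P w _ δ hw0 hδ0 ?_).trans ?_
        · intro z hz
          rw [mem_Ioc] at hz
          have hz2 : P ≤ z := by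
            have : 1 * P ≤ a0 * P := Nat.mul_le_mul_right P ha0
            omega
          have h3 := hcon x y z (fun i => hPM.trans (mem_bx_ge aA haA P x hx i))
            (fun i => hPM.trans (mem_bx_ge aB haB P y hy i)) (hPM.trans hz2)
          rw [hδ]
          refine h3.trans (le_of_eq ?_)
          congr 1; ring
        · exact mul_le_mul_of_nonneg_left x2 (by positivity)
      refine (sum_le_sum h2).trans ?_
      rw [sum_const, nsmul_eq_mul]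
    refine (sum_le_sum h1).trans ?_
    rw [sum_const, nsmul_eq_mul]
    exact le_of_eq (by ring)
  simp only [sum_sub_distrib] at hcore
  have hab := (abs_le.1 hcore).1
  rw [Real.sqrt_mul_self (by positivity)] at hab
  have h10 : 12 * ((#(bx aA P) : ℝ) * #(bx aB P) * (a0 * P)) *
      Real.exp (-(Real.pi * w ^ 2 * ((P : ℝ) ^ σ) ^ 2 / 2)) ≤
      12 * ((#(bx aA P) : ℝ) * #(bx aB P) * (a0 * P)) * E :=
    mul_le_mul_of_nonneg_left x1 (by positivity)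
  have h11 : c * w * (P : ℝ) ^ (k + k) / (P : ℝ) ^ (k - 1) ≤
      (P : ℝ) ^ (1 - σ) * (P : ℝ) ^ ((k : ℝ) + σ / 4) +
      15 * ((#(bx aA P) : ℝ) * #(bx aB P) * (a0 * P)) * E := by linarith
  rw [hcardA, hcardB] at h11
  -- normalize
  obtain ⟨Z, hZ⟩ : ∃ Z : ℝ, Z = (P : ℝ) ^ ((k : ℝ) + 1 - σ / 4) := ⟨_, rfl⟩
  have hZ0 : 0 < Z := by rw [hZ]; positivity
  have z1 : w * (P : ℝ) ^ (k + k) / (P : ℝ) ^ (k - 1) = Z := by
    rw [hw, hZ, ← Real.rpow_natCast, ← Real.rpow_natCast, ← Real.rpow_add hP0, ← Real.rpow_sub hP0]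
    congr 1
    rw [Nat.cast_sub (by omega)]; push_cast; ring
  have z2 : (P : ℝ) ^ (1 - σ) * (P : ℝ) ^ ((k : ℝ) + σ / 4) = Z * (P : ℝ) ^ (-(σ / 2)) := by
    rw [hZ, ← Real.rpow_add hP0, ← Real.rpow_add hP0]; congr 1; ring
  have z3 : (P : ℝ) ^ k * (P : ℝ) ^ k * P = Z * (P : ℝ) ^ ((k : ℝ) + σ / 4) := by
    rw [hZ, ← Real.rpow_add hP0, ← Real.rpow_natCast, ← Real.rpow_add hP0]
    nth_rw 2 [← Real.rpow_one (P : ℝ)]
    rw [← Real.rpow_add hP0]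
    congr 1; ring
  have h12 : c * Z ≤ Z * (P : ℝ) ^ (-(σ / 2)) +
      Z * (15 * (KA * KB * a0) * ((P : ℝ) ^ ((k : ℝ) + σ / 4) * E)) := by
    calc c * Z = c * w * (P : ℝ) ^ (k + k) / (P : ℝ) ^ (k - 1) := by rw [← z1]; ring
      _ ≤ _ := h11
      _ = Z * (P : ℝ) ^ (-(σ / 2)) + 15 * (KA * KB * a0) * ((P : ℝ) ^ k * (P : ℝ) ^ k * P) * E := by
        rw [z2]; ring
      _ = _ := by rw [z3]; ring
  rw [one_mul] at e7
  nlinarith

end Pool.Agent.L7h67.WA
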