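import Mathlib
import Pool.Agent.L7h67.WA.FinA
import Pool.Agent.L7h22.WA.Gm
import Pool.Agent.L7h22.WA.Dio

set_option autoImplicit false

namespace Pool.Agent.L7h67.WA

open Finset Polynomial Filter MeasureTheory

lemma equivA (k : ℕ) : Nonempty ((Fin k ⊕ Fin k) ⊕ Unit ≃ Fin (2 * k + 1)) :=
  ⟨Fintype.equivOfCardEq (by simp; ring)⟩

lemma equivB (k : ℕ) : Nonempty (Fin k ⊕ Unit ≃ Fin (k + 1)) :=
  ⟨Fintype.equivOfCardEq (by simp)⟩

lemma sumA {R : Type*} [AddCommMonoid R] (k : ℕ) (e : (Fin k ⊕ Fin k) ⊕ Unit ≃ Fin (2 * k + 1))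
    (f : Fin (2 * k + 1) → R) :
    ∑ i, f i = ∑ i, f (e (Sum.inl (Sum.inl i))) + ∑ i, f (e (Sum.inl (Sum.inr i))) +
      f (e (Sum.inr ())) := by
  rw [← e.sum_comp]
  simp [Fintype.sum_sum_type]

lemma sumB {R : Type*} [AddCommMonoid R] (k : ℕ) (e : Fin k ⊕ Unit ≃ Fin (k + 1))
    (f : Fin (k + 1) → R) :
    ∑ i, f i = ∑ i, f (e (Sum.inl i)) + f (e (Sum.inr ())) := by
  rw [← e.sum_comp]
  simp [Fintype.sum_sum_type]

/-- the vector glued from the three parts -/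
def glueA (k : ℕ) (e : (Fin k ⊕ Fin k) ⊕ Unit ≃ Fin (2 * k + 1)) (x y : Fin k → ℕ) (z : ℕ) :
    Fin (2 * k + 1) → ℕ := fun i => Sum.elim (Sum.elim x y) (fun _ => z) (e.symm i)

def glueB (k : ℕ) (e : Fin k ⊕ Unit ≃ Fin (k + 1)) (x : Fin k → ℕ) (z : ℕ) :
    Fin (k + 1) → ℕ := fun i => Sum.elim x (fun _ => z) (e.symm i)

lemma glueA_1 (k : ℕ) (e : (Fin k ⊕ Fin k) ⊕ Unit ≃ Fin (2 * k + 1)) (x y : Fin k → ℕ) (z : ℕ)
    (i : Fin k) : glueA k e x y z (e (Sum.inl (Sum.inl i))) = x i := by simp [glueA]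

lemma glueA_2 (k : ℕ) (e : (Fin k ⊕ Fin k) ⊕ Unit ≃ Fin (2 * k + 1)) (x y : Fin k → ℕ) (z : ℕ)
    (i : Fin k) : glueA k e x y z (e (Sum.inl (Sum.inr i))) = y i := by simp [glueA]

lemma glueA_3 (k : ℕ) (e : (Fin k ⊕ Fin k) ⊕ Unit ≃ Fin (2 * k + 1)) (x y : Fin k → ℕ) (z : ℕ) :
    glueA k e x y z (e (Sum.inr ())) = z := by simp [glueA]

lemma glueB_1 (k : ℕ) (e : Fin k ⊕ Unit ≃ Fin (k + 1)) (x : Fin k → ℕ) (z : ℕ)
    (i : Fin k) : glueB k e x z (e (Sum.inl i)) = x i := by simp [glueB]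

lemma glueB_3 (k : ℕ) (e : Fin k ⊕ Unit ≃ Fin (k + 1)) (x : Fin k → ℕ) (z : ℕ) :
    glueB k e x z (e (Sum.inr ())) = z := by simp [glueB]

lemma glueA_ge (k : ℕ) (e : (Fin k ⊕ Fin k) ⊕ Unit ≃ Fin (2 * k + 1)) (x y : Fin k → ℕ) (z M : ℕ)
    (hx : ∀ i, M ≤ x i) (hy : ∀ i, M ≤ y i) (hz : M ≤ z) (i) : M ≤ glueA k e x y z i := by
  unfold glueA
  rcases e.symm i with (j | j) | j
  · exact hx j
  · exact hy j
  · exact hz

lemma glueB_ge (k : ℕ) (e : Fin k ⊕ Unit ≃ Fin (k + 1)) (x : Fin k → ℕ) (z M : ℕ)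
    (hx : ∀ i, M ≤ x i) (hz : M ≤ z) (i) : M ≤ glueB k e x z i := by
  unfold glueB
  rcases e.symm i with j | j
  · exact hx j
  · exact hz

lemma pp_eval (k : ℕ) (θ : Fin k → ℝ) (x : ℝ) :
    (pp k θ).eval x = x ^ k + ∑ j : Fin k, θ j * x ^ (j : ℕ) := by
  simp [pp, eval_finset_sum]

lemma pp_coeff_top (k : ℕ) (θ : Fin k → ℝ) : (pp k θ).coeff k = 1 := by
  rw [pp, coeff_add, coeff_X_pow_self, finset_sum_coeff]
  rw [sum_eq_zero, add_zero]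
  intro j _
  rw [coeff_C_mul_X_pow, if_neg]
  have := j.isLt
  omega

lemma pp_coeff (k : ℕ) (θ : Fin k → ℝ) (i : Fin k) : (pp k θ).coeff i = θ i := by
  rw [pp, coeff_add, coeff_X_pow, if_neg (by have := i.isLt; omega), zero_add, finset_sum_coeff]
  rw [sum_eq_single i]
  · rw [coeff_C_mul_X_pow, if_pos rfl]
  · intro j _ hj
    rw [coeff_C_mul_X_pow, if_neg]
    intro h
    exact hj (Fin.ext h.symm)
  · intro h
    exact absurd (mem_univ i) h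

lemma pp_natDegree (k : ℕ) (θ : Fin k → ℝ) : (pp k θ).natDegree = k := by
  apply natDegree_eq_of_le_of_coeff_ne_zero
  · rw [pp]
    refine (natDegree_add_le _ _).trans (max_le (natDegree_X_pow_le k) ?_)
    refine natDegree_sum_le_of_forall_le _ _ (fun j _ => ?_)
    refine (natDegree_C_mul_X_pow_le _ _).trans ?_
    exact j.isLt.le
  · rw [pp_coeff_top]; exact one_ne_zero

lemma pp_lead (k : ℕ) (θ : Fin k → ℝ) : (pp k θ).leadingCoeff = 1 := by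
  rw [leadingCoeff, pp_natDegree, pp_coeff_top]

lemma s_FIN (h : S_GM) : S_FIN := fin_of h

/-- from the real statement to integer parts -/
lemma floor_close (n : ℤ) (s : ℤ) (t : ℝ) (h : |(s : ℝ) + t - ((n : ℝ) + 1 / 2)| < 1 / 2) :
    s + ⌊t⌋ = n := by
  rw [abs_lt] at h
  have h1 : ⌊t⌋ = n - s := by
    rw [Int.floor_eq_iff]
    push_cast
    constructor <;> linarith [h.1, h.2]
  rw [h1]; ring

lemma floor_rho (t : ℝ) : |((⌊t⌋ : ℤ) : ℝ) - t| ≤ 1 := by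
  rw [abs_le]
  constructor <;> linarith [Int.floor_le t, Int.lt_floor_add_one t]

end Pool.Agent.L7h67.WA
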