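import Mathlib
import Pool.Agent.L7h67.WA.Glue

set_option autoImplicit false

namespace Pool.Agent.L7h67.WA

open Finset Polynomial Filter MeasureTheory

lemma ev_half (c : ℝ) (hc : 0 < c) : ∀ᶠ τ : ℝ in atTop, τ ^ (-c) < 1 / 2 :=
  (tendsto_rpow_neg_atTop hc).eventually (gt_mem_nhds (by norm_num))

lemma ev_nat_half : Tendsto (fun n : ℕ => (n : ℝ) + 1 / 2) atTop atTop :=
  tendsto_atTop_add_const_right _ _ tendsto_natCast_atTop_atTop

theorem main1 (hMVC : S_MVC) (hGM : S_GM) (hF2 : S_FIN2) (hdio : S_DIO) :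
    ∀ k : ℕ, 2 ≤ k → ∃ c : ℝ, 0 < c ∧ ∀ᵐ θ : Fin k → ℝ, ∀ M : ℕ,
    (∀ᶠ n : ℕ in atTop, ∃ x : Fin (2 * k + 1) → ℕ, (∀ i, M ≤ x i) ∧
      ∑ i, ⌊(pp k θ).eval (x i : ℝ)⌋ = (n : ℤ)) ∧
    (∀ᶠ τ : ℝ in atTop, ∃ x : Fin (2 * k + 1) → ℕ, (∀ i, M ≤ x i) ∧
      |∑ i, (pp k θ).eval (x i : ℝ) - τ| < τ ^ (-c)) ∧
    (∀ᶠ N : ℕ in atTop, ∀ Z : Finset ℕ, (∀ n ∈ Z, n ≤ N) →
      (∀ n ∈ Z, ¬ ∃ x : Fin (k + 1) → ℕ, (∀ i, M ≤ x i) ∧
        ∑ i, ⌊(pp k θ).eval (x i : ℝ)⌋ = (n : ℤ)) → (#Z : ℝ) ≤ (N : ℝ) ^ (1 - c)) := by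
  intro k hk
  obtain ⟨c1, hc1, h1⟩ := s_FIN hGM k hk
  obtain ⟨c2, hc2, h2⟩ := hF2 k hk
  refine ⟨min c1 c2, lt_min hc1 hc2, ?_⟩
  have hd : ∀ᵐ θ : Fin k → ℝ, Dio (θ ⟨k - 1, by omega⟩) :=
    (Measure.quasiMeasurePreserving_eval _ _).ae hdio
  filter_upwards [hMVC k hk, hd] with θ hMV hdi M
  have hdeg : ∀ i : Fin k, ((fun _ : Fin k => pp k θ) i).natDegree = k ∧
      0 < ((fun _ : Fin k => pp k θ) i).leadingCoeff := fun i =>
    ⟨pp_natDegree k θ, by rw [pp_lead]; exact one_pos⟩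
  have hl : 0 < (pp k θ).leadingCoeff := by rw [pp_lead]; exact one_pos
  have ha : ∀ i : Fin k, 1 ≤ (fun i : Fin k => 8 ^ i.val) i := fun i => Nat.one_le_pow _ _ (by norm_num)
  have hD : Dio ((pp k θ).coeff (k - 1) / (pp k θ).coeff k) := by
    have := pp_coeff k θ ⟨k - 1, by omega⟩
    rw [pp_coeff_top, div_one]
    rw [this]; exact hdi
  obtain ⟨e⟩ := equivA k
  obtain ⟨e'⟩ := equivB k
  refine ⟨?_, ?_, ?_⟩
  · have h3 := h1 (fun _ => pp k θ) (fun _ => pp k θ) (pp k θ) (fun i => 8 ^ i.val) (fun i => 8 ^ i.val) 1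
      hdeg hdeg (pp_natDegree k θ) hl ha ha le_rfl hMV hMV hD M (fun t => ((⌊t⌋ : ℤ) : ℝ)) floor_rho
    have h4 := ev_nat_half.eventually (h3.and (ev_half c1 hc1))
    filter_upwards [h4] with n hn
    obtain ⟨⟨x, y, z, hx, hy, hz, hxyz⟩, hhalf⟩ := hn
    refine ⟨glueA k e x y z, glueA_ge k e x y z M hx hy hz, ?_⟩
    rw [sumA k e]
    simp only [glueA_1, glueA_2, glueA_3]
    apply floor_close
    push_cast
    exact hxyz.trans hhalf
  · have h3 := h1 (fun _ => pp k θ) (fun _ => pp k θ) (pp k θ) (fun i => 8 ^ i.val) (fun i => 8 ^ i.val) 1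
      hdeg hdeg (pp_natDegree k θ) hl ha ha le_rfl hMV hMV hD M (fun t => t)
      (fun t => by rw [sub_self, abs_zero]; exact zero_le_one)
    filter_upwards [h3, eventually_ge_atTop 1] with τ hτ hτ1
    obtain ⟨x, y, z, hx, hy, hz, hxyz⟩ := hτ
    refine ⟨glueA k e x y z, glueA_ge k e x y z M hx hy hz, ?_⟩
    rw [sumA k e]
    simp only [glueA_1, glueA_2, glueA_3]
    refine hxyz.trans_le (Real.rpow_le_rpow_of_exponent_le hτ1 ?_)
    have := min_le_left c1 c2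
    linarith
  · have h3 := h2 (fun _ => pp k θ) (pp k θ) (fun i => 8 ^ i.val) 1
      hdeg (pp_natDegree k θ) hl ha le_rfl hMV hD M (fun t => ((⌊t⌋ : ℤ) : ℝ)) floor_rho (1 / 2)
    have h4 := tendsto_natCast_atTop_atTop.eventually (ev_half c2 hc2)
    filter_upwards [h3, h4, eventually_ge_atTop 1] with N hN hhalf hN1 Z hZ hZn
    refine (hN Z hZ ?_).trans ?_
    · intro n hn x z hx hz
      by_contra hcon
      push Not at hcon
      apply hZn n hn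
      refine ⟨glueB k e' x z, glueB_ge k e' x z M hx hz, ?_⟩
      rw [sumB k e']
      simp only [glueB_1, glueB_3]
      apply floor_close
      push_cast
      exact hcon.trans hhalf
    · apply Real.rpow_le_rpow_of_exponent_le (by exact_mod_cast hN1)
      have := min_le_right c1 c2
      linarith

end Pool.Agent.L7h67.WA
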