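import Mathlib
import Pool.Agent.L7h67.WA.Res1

set_option autoImplicit false

namespace Pool.Agent.L7h67.WA

open Finset Polynomial Filter MeasureTheory

lemma ae_affine (p : ℝ → Prop) (hp : ∀ᵐ x : ℝ, p x) (c a : ℝ) (ha : a ≠ 0) :
    ∀ᵐ x : ℝ, p (c + a * x) := by
  rw [ae_iff] at hp ⊢
  have h1 : {x : ℝ | ¬ p (c + a * x)} = (fun x => a * x) ⁻¹' ((fun y => c + y) ⁻¹' {x | ¬ p x}) := rfl
  rw [h1, Real.volume_preimage_mul_left ha, measure_preimage_add, hp, mul_zero]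

lemma taylor_coeff_pred (f : ℝ[X]) (k : ℕ) (hk : 1 ≤ k) (hf : f.natDegree ≤ k) (r : ℝ) :
    (taylor r f).coeff (k - 1) = f.coeff (k - 1) + k * f.coeff k * r := by
  obtain ⟨j, rfl⟩ : ∃ j, k = j + 1 := ⟨k - 1, by omega⟩
  rw [Nat.add_sub_cancel, taylor_coeff]
  have h1 : (hasseDeriv j f).natDegree < 2 := by
    have := natDegree_hasseDeriv_le f j
    omega
  rw [eval_eq_sum_range' h1, sum_range_succ, sum_range_succ, sum_range_zero, hasseDeriv_coeff,
    hasseDeriv_coeff, zero_add, zero_add, Nat.choose_self, add_comm 1 j, Nat.choose_succ_self_right]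
  push_cast
  ring

lemma comp_taylor (f : ℝ[X]) (t : ℝ) : f.comp (X - C t) = taylor (-t) f := by
  rw [taylor_apply, map_neg, sub_eq_add_neg]

lemma comp_facts (f : ℝ[X]) (k : ℕ) (hk : 1 ≤ k) (hf : f.natDegree = k) (hl : 0 < f.leadingCoeff)
    (t : ℝ) : (f.comp (X - C t)).natDegree = k ∧ 0 < (f.comp (X - C t)).leadingCoeff ∧
      (f.comp (X - C t)).coeff (k - 1) / (f.comp (X - C t)).coeff k =
        f.coeff (k - 1) / f.coeff k + (-k) * t := by
  have h1 : (f.comp (X - C t)).natDegree = k := by rw [comp_taylor, natDegree_taylor, hf]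
  have h2 : (f.comp (X - C t)).coeff k = f.coeff k := by
    rw [comp_taylor, W1.taylor_coeff_top f k hf.le]
  have h3 : f.coeff k = f.leadingCoeff := by rw [leadingCoeff, hf]
  refine ⟨h1, ?_, ?_⟩
  · rw [leadingCoeff, h1, h2, h3]; exact hl
  · rw [h2, comp_taylor, taylor_coeff_pred f k hk hf.le]
    have : f.coeff k ≠ 0 := by rw [h3]; exact hl.ne'
    field_simp

lemma comp_eval (f : ℝ[X]) (t x : ℝ) : (f.comp (X - C t)).eval x = f.eval (x - t) := by
  rw [eval_comp, eval_sub, eval_X, eval_C]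

lemma exists_M {n : ℕ} (θ : Fin n → ℝ) : ∃ M : ℕ, 1 ≤ M ∧ ∀ i, θ i < M := by
  obtain ⟨M, hM⟩ := exists_nat_gt (∑ i, |θ i|)
  refine ⟨M + 1, by omega, fun i => ?_⟩
  have h1 : |θ i| ≤ ∑ i, |θ i| := single_le_sum (f := fun i => |θ i|) (fun j _ => abs_nonneg _) (mem_univ i)
  have h2 := le_abs_self (θ i)
  push_cast
  linarith

theorem main2 (hMVB : S_MVB) (hGM : S_GM) (hF2 : S_FIN2) (hdio : S_DIO) :
    ∀ k : ℕ, 2 ≤ k → ∃ c : ℝ, 0 < c ∧
    (∀ g : Fin (2 * k + 1) → ℝ[X], (∀ i, (g i).natDegree = k ∧ 0 < (g i).leadingCoeff) →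
      ∀ᵐ θ : Fin (2 * k + 1) → ℝ,
      (∀ᶠ τ : ℝ in atTop, ∃ x : Fin (2 * k + 1) → ℕ, (∀ i, 1 ≤ x i ∧ θ i < x i) ∧
        |∑ i, (g i).eval ((x i : ℝ) - θ i) - τ| < τ ^ (-c)) ∧
      (∀ᶠ n : ℕ in atTop, ∃ x : Fin (2 * k + 1) → ℕ, (∀ i, 1 ≤ x i ∧ θ i < x i) ∧
        ∑ i, ⌊(g i).eval ((x i : ℝ) - θ i)⌋ = (n : ℤ))) ∧
    (∀ g : Fin (k + 1) → ℝ[X], (∀ i, (g i).natDegree = k ∧ 0 < (g i).leadingCoeff) →
      ∀ᵐ θ : Fin (k + 1) → ℝ, ∀ᶠ N : ℕ in atTop, ∀ Z : Finset ℕ, (∀ n ∈ Z, n ≤ N) →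
      (∀ n ∈ Z, ¬ ∃ x : Fin (k + 1) → ℕ, (∀ i, 1 ≤ x i ∧ θ i < x i) ∧
        ∑ i, ⌊(g i).eval ((x i : ℝ) - θ i)⌋ = (n : ℤ)) → (#Z : ℝ) ≤ (N : ℝ) ^ (1 - c)) := by
  intro k hk
  obtain ⟨c1, hc1, h1⟩ := s_FIN hGM k hk
  obtain ⟨c2, hc2, h2⟩ := hF2 k hk
  have hk0 : (-(k : ℝ)) ≠ 0 := neg_ne_zero.2 (Nat.cast_ne_zero.2 (by omega))
  obtain ⟨e⟩ := equivA k
  obtain ⟨e'⟩ := equivB k
  refine ⟨min c1 c2, lt_min hc1 hc2, ?_, ?_⟩
  · intro g hg
    have hd : ∀ᵐ θ : Fin (2 * k + 1) → ℝ, Dio ((g (e (Sum.inr ()))).coeff (k - 1) /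
        (g (e (Sum.inr ()))).coeff k + (-k) * θ (e (Sum.inr ()))) :=
      (Measure.quasiMeasurePreserving_eval (fun _ : Fin (2 * k + 1) => (volume : Measure ℝ))
        (e (Sum.inr ()))).ae (ae_affine Dio hdio _ _ hk0)
    have hA := hMVB k (Fin (2 * k + 1)) (fun i => e (Sum.inl (Sum.inl i)))
      (fun i => g (e (Sum.inl (Sum.inl i)))) hk
      (fun i j h => by simpa using h) (fun i => hg _)
    have hB := hMVB k (Fin (2 * k + 1)) (fun i => e (Sum.inl (Sum.inr i)))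
      (fun i => g (e (Sum.inl (Sum.inr i)))) hk
      (fun i j h => by simpa using h) (fun i => hg _)
    filter_upwards [hd, hA, hB] with θ hdi hMA hMB
    obtain ⟨M, hM1, hM⟩ := exists_M θ
    have hfacts : ∀ i, (((g i).comp (X - C (θ i))).natDegree = k ∧
        0 < ((g i).comp (X - C (θ i))).leadingCoeff) := fun i =>
      ⟨(comp_facts (g i) k (by omega) (hg i).1 (hg i).2 (θ i)).1,
       (comp_facts (g i) k (by omega) (hg i).1 (hg i).2 (θ i)).2.1⟩
    have hD : Dio (((g (e (Sum.inr ()))).comp (X - C (θ (e (Sum.inr ()))))).coeff (k - 1) /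
        ((g (e (Sum.inr ()))).comp (X - C (θ (e (Sum.inr ()))))).coeff k) := by
      rw [(comp_facts (g (e (Sum.inr ()))) k (by omega) (hg _).1 (hg _).2 (θ (e (Sum.inr ())))).2.2]
      exact hdi
    have hMx : ∀ x : Fin (2 * k + 1) → ℕ, (∀ i, M ≤ x i) → ∀ i, 1 ≤ x i ∧ θ i < x i := by
      intro x hx i
      refine ⟨hM1.trans (hx i), (hM i).trans_le ?_⟩
      exact_mod_cast hx i
    constructor
    · have h3 := h1 _ _ _ (fun _ => 1) (fun _ => 1) 1 (fun i => hfacts _) (fun i => hfacts _)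
        (hfacts (e (Sum.inr ()))).1 (hfacts (e (Sum.inr ()))).2
        (fun _ => le_rfl) (fun _ => le_rfl) le_rfl hMA hMB hD M (fun t => t)
        (fun t => by rw [sub_self, abs_zero]; exact zero_le_one)
      filter_upwards [h3, eventually_ge_atTop 1] with τ hτ hτ1
      obtain ⟨x, y, z, hx, hy, hz, hxyz⟩ := hτ
      refine ⟨glueA k e x y z, hMx _ (glueA_ge k e x y z M hx hy hz), ?_⟩
      rw [sumA k e]
      simp only [glueA_1, glueA_2, glueA_3]
      simp only [comp_eval] at hxyz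
      refine hxyz.trans_le (Real.rpow_le_rpow_of_exponent_le hτ1 ?_)
      have := min_le_left c1 c2
      linarith
    · have h3 := h1 _ _ _ (fun _ => 1) (fun _ => 1) 1 (fun i => hfacts _) (fun i => hfacts _)
        (hfacts (e (Sum.inr ()))).1 (hfacts (e (Sum.inr ()))).2
        (fun _ => le_rfl) (fun _ => le_rfl) le_rfl hMA hMB hD M (fun t => ((⌊t⌋ : ℤ) : ℝ)) floor_rho
      have h4 := ev_nat_half.eventually (h3.and (ev_half c1 hc1))
      filter_upwards [h4] with n hn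
      obtain ⟨⟨x, y, z, hx, hy, hz, hxyz⟩, hhalf⟩ := hn
      refine ⟨glueA k e x y z, hMx _ (glueA_ge k e x y z M hx hy hz), ?_⟩
      rw [sumA k e]
      simp only [glueA_1, glueA_2, glueA_3]
      simp only [comp_eval] at hxyz
      apply floor_close
      push_cast
      exact hxyz.trans hhalf
  · intro g hg
    have hd : ∀ᵐ θ : Fin (k + 1) → ℝ, Dio ((g (e' (Sum.inr ()))).coeff (k - 1) /
        (g (e' (Sum.inr ()))).coeff k + (-k) * θ (e' (Sum.inr ()))) :=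
      (Measure.quasiMeasurePreserving_eval (fun _ : Fin (k + 1) => (volume : Measure ℝ))
        (e' (Sum.inr ()))).ae (ae_affine Dio hdio _ _ hk0)
    have hA := hMVB k (Fin (k + 1)) (fun i => e' (Sum.inl i))
      (fun i => g (e' (Sum.inl i))) hk
      (fun i j h => by simpa using h) (fun i => hg _)
    filter_upwards [hd, hA] with θ hdi hMA
    obtain ⟨M, hM1, hM⟩ := exists_M θ
    have hfacts : ∀ i, (((g i).comp (X - C (θ i))).natDegree = k ∧
        0 < ((g i).comp (X - C (θ i))).leadingCoeff) := fun i =>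
      ⟨(comp_facts (g i) k (by omega) (hg i).1 (hg i).2 (θ i)).1,
       (comp_facts (g i) k (by omega) (hg i).1 (hg i).2 (θ i)).2.1⟩
    have hD : Dio (((g (e' (Sum.inr ()))).comp (X - C (θ (e' (Sum.inr ()))))).coeff (k - 1) /
        ((g (e' (Sum.inr ()))).comp (X - C (θ (e' (Sum.inr ()))))).coeff k) := by
      rw [(comp_facts (g (e' (Sum.inr ()))) k (by omega) (hg _).1 (hg _).2 (θ (e' (Sum.inr ())))).2.2]
      exact hdi
    have hMx : ∀ x : Fin (k + 1) → ℕ, (∀ i, M ≤ x i) → ∀ i, 1 ≤ x i ∧ θ i < x i := by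
      intro x hx i
      refine ⟨hM1.trans (hx i), (hM i).trans_le ?_⟩
      exact_mod_cast hx i
    have h3 := h2 _ _ (fun _ => 1) 1 (fun i => hfacts _)
      (hfacts (e' (Sum.inr ()))).1 (hfacts (e' (Sum.inr ()))).2
      (fun _ => le_rfl) le_rfl hMA hD M (fun t => ((⌊t⌋ : ℤ) : ℝ)) floor_rho (1 / 2)
    have h4 := tendsto_natCast_atTop_atTop.eventually (ev_half c2 hc2)
    filter_upwards [h3, h4, eventually_ge_atTop 1] with N hN hhalf hN1 Z hZ hZn
    refine (hN Z hZ ?_).trans ?_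
    · intro n hn x z hx hz
      by_contra hcon
      push Not at hcon
      apply hZn n hn
      refine ⟨glueB k e' x z, hMx _ (glueB_ge k e' x z M hx hz), ?_⟩
      rw [sumB k e']
      simp only [glueB_1, glueB_3]
      simp only [comp_eval] at hcon
      apply floor_close
      push_cast
      exact hcon.trans hhalf
    · apply Real.rpow_le_rpow_of_exponent_le (by exact_mod_cast hN1)
      have := min_le_right c1 c2
      linarith

end Pool.Agent.L7h67.WA
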